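import Mathlib

set_option autoImplicit false

open Finset
open scoped InnerProductSpace

namespace Pool.Agent.H434

variable {V ι : Type*} [NormedAddCommGroup V] [InnerProductSpace ℂ V] [Fintype ι]

/-- the diagonal unitary with phases `a` in the orthonormal basis `u` -/
noncomputable def ph (u : OrthonormalBasis ι ℂ V) (a : ι → ℝ) (x : V) : V :=
  ∑ i, (Complex.exp (a i * Complex.I) * ⟪u i, x⟫_ℂ) • u i

lemma inner_ph [DecidableEq ι] (u : OrthonormalBasis ι ℂ V) (a : ι → ℝ) (x : V) (i : ι) :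
    ⟪u i, ph u a x⟫_ℂ = Complex.exp (a i * Complex.I) * ⟪u i, x⟫_ℂ := by
  simp [ph, inner_sum, inner_smul_right, u.inner_eq_ite]

lemma norm_ph (u : OrthonormalBasis ι ℂ V) (a : ι → ℝ) (x : V) : ‖ph u a x‖ = ‖x‖ := by
  classical
  have h : ‖ph u a x‖ ^ 2 = ‖x‖ ^ 2 := by
    rw [← u.sum_sq_norm_inner_right (ph u a x), ← u.sum_sq_norm_inner_right x]
    refine Finset.sum_congr rfl fun i _ => ?_
    rw [inner_ph, norm_mul, Complex.norm_exp_ofReal_mul_I, one_mul]
  exact (sq_eq_sq₀ (norm_nonneg _) (norm_nonneg _)).1 h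

lemma ph_sub (u : OrthonormalBasis ι ℂ V) (a : ι → ℝ) (x y : V) :
    ph u a (x - y) = ph u a x - ph u a y := by
  simp [ph, inner_sub_right, mul_sub, sub_smul, Finset.sum_sub_distrib]

lemma ph_ph (u : OrthonormalBasis ι ℂ V) (a b : ι → ℝ) (x : V) :
    ph u a (ph u b x) = ph u (fun i => a i + b i) x := by
  classical
  unfold ph
  refine Finset.sum_congr rfl fun i _ => ?_
  have := inner_ph u b x i
  unfold ph at this
  rw [this]
  congr 1
  push_cast
  rw [add_mul, Complex.exp_add]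
  ring

lemma ph_zero (u : OrthonormalBasis ι ℂ V) (x : V) : ph u (fun _ => 0) x = x := by
  simp only [ph, Complex.ofReal_zero, zero_mul, Complex.exp_zero, one_mul]
  exact u.sum_repr' x

lemma inner_eig (u : OrthonormalBasis ι ℂ V) (a : ι → ℝ) (H : V →ₗ[ℂ] V)
    (hH : ∀ i, H (u i) = (a i : ℂ) • u i) (y : V) (i : ι) :
    ⟪u i, H y⟫_ℂ = (a i : ℂ) * ⟪u i, y⟫_ℂ := by
  classical
  conv_lhs => rw [← u.sum_repr' y]
  rw [map_sum, inner_sum]
  simp only [map_smul, hH, inner_smul_right, u.inner_eq_ite]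
  simp [mul_comm]

lemma eig_apply (u : OrthonormalBasis ι ℂ V) (a : ι → ℝ) (H : V →ₗ[ℂ] V)
    (hH : ∀ i, H (u i) = (a i : ℂ) • u i) (t : ℝ) (x : V) :
    H (ph u (fun i => t * a i) x) =
      ∑ i, ((a i : ℂ) * (Complex.exp ((t * a i : ℝ) * Complex.I) * ⟪u i, x⟫_ℂ)) • u i := by
  unfold ph
  rw [map_sum]
  refine Finset.sum_congr rfl fun i _ => ?_
  rw [map_smul, hH, smul_smul]
  congr 1
  ring

lemma hasDerivAt_exp (c : ℝ) (t : ℝ) :
    HasDerivAt (fun s : ℝ => Complex.exp ((s * c : ℝ) * Complex.I))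
      ((c * Complex.I) * Complex.exp ((t * c : ℝ) * Complex.I)) t := by
  have h1 : HasDerivAt (fun s : ℝ => ((s * c : ℝ) : ℂ) * Complex.I) ((c : ℂ) * Complex.I) t := by
    have h0 : HasDerivAt (fun s : ℝ => s * c) c t := by
      simpa using (hasDerivAt_id t).mul_const c
    exact (HasDerivAt.ofReal_comp h0).mul_const Complex.I
  have h2 := h1.cexp
  rw [mul_comm]
  exact h2

lemma hasDerivAt_ph (u : OrthonormalBasis ι ℂ V) (a : ι → ℝ) (H : V →ₗ[ℂ] V)
    (hH : ∀ i, H (u i) = (a i : ℂ) • u i) (x : V) (t : ℝ) :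
    HasDerivAt (fun s : ℝ => ph u (fun i => s * a i) x)
      (Complex.I • H (ph u (fun i => t * a i) x)) t := by
  rw [eig_apply u a H hH, Finset.smul_sum]
  unfold ph
  refine HasDerivAt.fun_sum fun i _ => ?_
  have h := ((hasDerivAt_exp (a i) t).mul_const ⟪u i, x⟫_ℂ).smul_const (u i)
  convert h using 1
  rw [smul_smul]
  congr 1
  ring

/-- Duhamel's estimate -/
lemma duhamel (u v : OrthonormalBasis ι ℂ V) (a b : ι → ℝ) (HA HB : V →ₗ[ℂ] V)
    (hA : ∀ i, HA (u i) = (a i : ℂ) • u i) (hB : ∀ i, HB (v i) = (b i : ℂ) • v i)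
    (D : ℝ) (hD : ∀ y, ‖HB y - HA y‖ ≤ D * ‖y‖) (x : V) :
    ‖ph v b x - ph u a x‖ ≤ D * ‖x‖ := by
  classical
  set f : ℝ → V := fun s => ph u (fun i => s * (-a i)) (ph v (fun i => s * b i) x) with hf
  have hder : ∀ t : ℝ, HasDerivAt f (Complex.I • ph u (fun i => t * (-a i))
      (HB (ph v (fun i => t * b i) x) - HA (ph v (fun i => t * b i) x))) t := by
    intro t
    have hv := hasDerivAt_ph v b HB hB x t
    simp only [hf]
    unfold ph at hv ⊢
    rw [Finset.smul_sum]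
    refine HasDerivAt.fun_sum fun i _ => ?_
    have h1 := hasDerivAt_exp (-a i) t
    have h2 : HasDerivAt (fun s : ℝ => ⟪u i, ∑ j, (Complex.exp ((s * b j : ℝ) * Complex.I) *
        ⟪v j, x⟫_ℂ) • v j⟫_ℂ) ⟪u i, Complex.I • HB (∑ j, (Complex.exp ((t * b j : ℝ) * Complex.I) *
        ⟪v j, x⟫_ℂ) • v j)⟫_ℂ t := by
      have := (hasDerivAt_const t (u i)).inner ℂ hv
      rw [inner_zero_left, add_zero] at this
      exact this
    have h3 := (h1.mul h2).smul_const (u i)
    refine HasDerivAt.congr_deriv h3 ?_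
    rw [smul_smul]
    congr 1
    rw [inner_sub_right, inner_smul_right, inner_eig u a HA hA]
    push_cast
    ring
  have hbound : ∀ t ∈ Set.Ico (0 : ℝ) 1, ‖Complex.I • ph u (fun i => t * (-a i))
      (HB (ph v (fun i => t * b i) x) - HA (ph v (fun i => t * b i) x))‖ ≤ D * ‖x‖ := by
    intro t _
    rw [norm_smul, Complex.norm_I, one_mul, norm_ph]
    refine (hD _).trans ?_
    rw [norm_ph]
  have hmain := norm_image_sub_le_of_norm_deriv_le_segment_01'
    (f := f) (fun t _ => (hder t).hasDerivWithinAt) hbound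
  have e0 : f 0 = x := by
    simp only [hf, zero_mul]
    rw [ph_zero, ph_zero]
  have e1 : f 1 = ph u (fun i => -a i) (ph v b x) := by
    simp only [hf, one_mul]
  have e2 : ph u a (f 1 - f 0) = ph v b x - ph u a x := by
    rw [ph_sub, e1, e0, ph_ph]
    simp only [add_neg_cancel]
    rw [ph_zero]
  rw [← e2, norm_ph]
  exact hmain

end Pool.Agent.H434
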