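import Mathlib
import Pool.Agent.H434.Duhamel

set_option autoImplicit false

open Finset
open scoped InnerProductSpace

namespace Pool.Agent.H434

/-- a differentiable function `h` with `|h'| ≤ ν √(1 - h²)` and `h 0 = 1` satisfies
`h 1 ≥ cos ν` -/
lemma cos_le_of_deriv (h h' : ℝ → ℝ) (ν : ℝ) (hν : 0 ≤ ν) (hνπ : ν ≤ Real.pi) (h0 : h 0 = 1)
    (hd : ∀ t, HasDerivAt h (h' t) t) (hb : ∀ t, |h t| ≤ 1)
    (hdb : ∀ t, |h' t| ≤ ν * √(1 - h t ^ 2)) : Real.cos ν ≤ h 1 := by
  have hsq : ∀ t, h t ^ 2 ≤ 1 := fun t => by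
    rw [← sq_abs]; nlinarith [hb t, abs_nonneg (h t)]
  have key : ∀ l : ℝ, 0 < l → l < 1 → Real.arccos (l * h 1) ≤ Real.arccos l + ν := by
    intro l hl0 hl1
    have hlt : ∀ t, |l * h t| < 1 := by
      intro t
      rw [abs_mul, abs_of_pos hl0]
      calc l * |h t| ≤ l * 1 := mul_le_mul_of_nonneg_left (hb t) hl0.le
        _ < 1 := by linarith
    have hder : ∀ t, HasDerivAt (fun t => Real.arccos (l * h t))
        (-(1 / √(1 - (l * h t) ^ 2)) * (l * h' t)) t := by
      intro t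
      have h1 := abs_lt.1 (hlt t)
      exact HasDerivAt.comp t (h₂ := Real.arccos) (h := fun t => l * h t)
        (Real.hasDerivAt_arccos (ne_of_gt h1.1) (ne_of_lt h1.2)) ((hd t).const_mul l)
    have hbd : ∀ t ∈ Set.Ico (0 : ℝ) 1, ‖-(1 / √(1 - (l * h t) ^ 2)) * (l * h' t)‖ ≤ ν := by
      intro t _
      have h1 : 0 < 1 - (l * h t) ^ 2 := by
        have := hlt t
        have h2 : (l * h t) ^ 2 < 1 := by
          rw [← sq_abs]; nlinarith [abs_nonneg (l * h t)]
        linarith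
      have h2 : 0 < √(1 - (l * h t) ^ 2) := Real.sqrt_pos.2 h1
      rw [Real.norm_eq_abs, abs_mul, abs_neg, abs_of_pos (by positivity), abs_mul, abs_of_pos hl0]
      have h3 : l * |h' t| ≤ ν * √(1 - (l * h t) ^ 2) := by
        have h4 : l * √(1 - h t ^ 2) ≤ √(1 - (l * h t) ^ 2) := by
          apply Real.le_sqrt_of_sq_le
          rw [mul_pow, Real.sq_sqrt (by linarith [hsq t])]
          nlinarith [hsq t]
        calc l * |h' t| ≤ l * (ν * √(1 - h t ^ 2)) := mul_le_mul_of_nonneg_left (hdb t) hl0.le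
          _ = ν * (l * √(1 - h t ^ 2)) := by ring
          _ ≤ _ := mul_le_mul_of_nonneg_left h4 hν
      rw [one_div, inv_mul_le_iff₀ h2, mul_comm (√_)]
      exact h3
    have := norm_image_sub_le_of_norm_deriv_le_segment_01'
      (f := fun t => Real.arccos (l * h t)) (fun t _ => (hder t).hasDerivWithinAt) hbd
    simp only [h0, mul_one] at this
    have h5 := (abs_le.1 (by rwa [Real.norm_eq_abs] at this)).2
    linarith
  have hlim : Real.arccos (h 1) ≤ Real.arccos 1 + ν := by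
    have c1 : Filter.Tendsto (fun l : ℝ => Real.arccos (l * h 1)) (nhdsWithin 1 (Set.Iio 1))
        (nhds (Real.arccos (1 * h 1))) :=
      ((Real.continuous_arccos.comp (continuous_id.mul continuous_const)).tendsto 1).mono_left
        nhdsWithin_le_nhds
    have c2 : Filter.Tendsto (fun l : ℝ => Real.arccos l + ν) (nhdsWithin 1 (Set.Iio 1))
        (nhds (Real.arccos 1 + ν)) :=
      ((Real.continuous_arccos.add continuous_const).tendsto 1).mono_left nhdsWithin_le_nhds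
    rw [one_mul] at c1
    refine le_of_tendsto_of_tendsto c1 c2 ?_
    have : Set.Ioo (0 : ℝ) 1 ∈ nhdsWithin (1 : ℝ) (Set.Iio 1) := Ioo_mem_nhdsLT (by norm_num)
    filter_upwards [this] with l hl
    exact key l hl.1 hl.2
  rw [Real.arccos_one, zero_add] at hlim
  have h6 := abs_le.1 (hb 1)
  calc Real.cos ν ≤ Real.cos (Real.arccos (h 1)) :=
        Real.cos_le_cos_of_nonneg_of_le_pi (Real.arccos_nonneg _) hνπ hlim
    _ = h 1 := Real.cos_arccos h6.1 h6.2

variable {V ι : Type*} [NormedAddCommGroup V] [InnerProductSpace ℂ V] [Fintype ι]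

lemma inner_ph_eq (u : OrthonormalBasis ι ℂ V) (a : ι → ℝ) (x y : V) :
    ⟪ph u a x, y⟫_ℂ = ⟪x, ph u (fun i => -a i) y⟫_ℂ := by
  classical
  unfold ph
  rw [sum_inner, inner_sum]
  refine Finset.sum_congr rfl fun i _ => ?_
  rw [inner_smul_left, inner_smul_right, map_mul, ← Complex.exp_conj, map_mul, Complex.conj_I,
    Complex.conj_ofReal, inner_conj_symm]
  push_cast
  ring_nf

/-- The angle bound. -/
lemma angle_bound (u v : OrthonormalBasis ι ℂ V) (a b : ι → ℝ) (HA HB : V →ₗ[ℂ] V)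
    (hA : ∀ i, HA (u i) = (a i : ℂ) • u i) (hB : ∀ i, HB (v i) = (b i : ℂ) • v i)
    (D : ℝ) (hD0 : 0 ≤ D) (hDπ : D ≤ Real.pi) (hD : ∀ y, ‖HB y - HA y‖ ≤ D * ‖y‖) (x : V)
    (hx : ‖x‖ = 1) :
    Real.cos D ≤ (⟪ph u a x, ph v b x⟫_ℂ).re := by
  classical
  set f : ℝ → V := fun s => ph u (fun i => s * (-a i)) (ph v (fun i => s * b i) x) with hf
  set g : ℝ → V := fun t => Complex.I • ph u (fun i => t * (-a i))
      (HB (ph v (fun i => t * b i) x) - HA (ph v (fun i => t * b i) x)) with hg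
  have hder : ∀ t : ℝ, HasDerivAt f (g t) t := by
    intro t
    have hv := hasDerivAt_ph v b HB hB x t
    simp only [hf, hg]
    unfold ph at hv ⊢
    rw [Finset.smul_sum]
    refine HasDerivAt.fun_sum fun i _ => ?_
    have h1 := hasDerivAt_exp (-a i) t
    have h2 : HasDerivAt (fun s : ℝ => ⟪u i, ∑ j, (Complex.exp ((s * b j : ℝ) * Complex.I) *
        ⟪v j, x⟫_ℂ) • v j⟫_ℂ) ⟪u i, Complex.I • HB (∑ j, (Complex.exp ((t * b j : ℝ) * Complex.I) *
        ⟪v j, x⟫_ℂ) • v j)⟫_ℂ t := by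
      have := (hasDerivAt_const t (u i)).inner ℂ hv
      rw [inner_zero_left, add_zero] at this
      exact this
    have h3 := (h1.mul h2).smul_const (u i)
    refine HasDerivAt.congr_deriv h3 ?_
    rw [smul_smul]
    congr 1
    rw [inner_sub_right, inner_smul_right, inner_eig u a HA hA]
    push_cast
    ring
  have hfn : ∀ t, ‖f t‖ = 1 := by
    intro t
    simp only [hf]
    rw [norm_ph, norm_ph, hx]
  have hgn : ∀ t, ‖g t‖ ≤ D := by
    intro t
    simp only [hg]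
    rw [norm_smul, Complex.norm_I, one_mul, norm_ph]
    refine (hD _).trans ?_
    rw [norm_ph, hx, mul_one]
  have e0 : f 0 = x := by
    simp only [hf, zero_mul]
    rw [ph_zero, ph_zero]
  have e1 : ⟪x, f 1⟫_ℂ = ⟪ph u a x, ph v b x⟫_ℂ := by
    rw [inner_ph_eq]
    simp only [hf, one_mul]
  -- the real part of the inner product of `f` and its derivative vanishes
  have hfg : ∀ t, (⟪f t, g t⟫_ℂ).re = 0 := by
    intro t
    have h1 : HasDerivAt (fun s => ⟪f s, f s⟫_ℂ) (⟪f t, g t⟫_ℂ + ⟪g t, f t⟫_ℂ) t :=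
      (hder t).inner ℂ (hder t)
    have h2 : (fun s => ⟪f s, f s⟫_ℂ) = fun _ => (1 : ℂ) := by
      funext s
      rw [inner_self_eq_norm_sq_to_K, hfn s]
      simp
    rw [h2] at h1
    have h3 := h1.unique (hasDerivAt_const t (1 : ℂ))
    have h4 := congrArg Complex.re h3
    rw [Complex.add_re, Complex.zero_re, ← inner_conj_symm (g t) (f t), Complex.conj_re] at h4
    linarith
  have hh : ∀ t, HasDerivAt (fun s => (⟪x, f s⟫_ℂ).re) ((⟪x, g t⟫_ℂ).re) t := by
    intro t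
    have h1 : HasDerivAt (fun s => ⟪x, f s⟫_ℂ) ⟪x, g t⟫_ℂ t := by
      have := (hasDerivAt_const t x).inner ℂ (hder t)
      rw [inner_zero_left, add_zero] at this
      exact this
    exact Complex.reCLM.hasFDerivAt.comp_hasDerivAt t h1
  have hcs : ∀ y z : V, |(⟪y, z⟫_ℂ).re| ≤ ‖y‖ * ‖z‖ := fun y z =>
    (Complex.abs_re_le_norm _).trans (norm_inner_le_norm y z)
  have hbnd : ∀ t, |(⟪x, f t⟫_ℂ).re| ≤ 1 := by
    intro t
    have := hcs x (f t)
    rwa [hx, hfn, one_mul] at this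
  have hmain := cos_le_of_deriv (fun t => (⟪x, f t⟫_ℂ).re) (fun t => (⟪x, g t⟫_ℂ).re) D hD0 hDπ
    (by
      change (⟪x, f 0⟫_ℂ).re = 1
      rw [e0, inner_self_eq_norm_sq_to_K, hx]
      simp) hh hbnd (by
      intro t
      change |(⟪x, g t⟫_ℂ).re| ≤ D * √(1 - (⟪x, f t⟫_ℂ).re ^ 2)
      set c : ℝ := (⟪x, f t⟫_ℂ).re with hc
      have h1 : (⟪x, g t⟫_ℂ).re = (⟪x - (c : ℂ) • f t, g t⟫_ℂ).re := by
        rw [inner_sub_left, inner_smul_left, Complex.conj_ofReal, Complex.sub_re,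
          Complex.re_ofReal_mul, hfg t, mul_zero, sub_zero]
      have h2 : ‖x - (c : ℂ) • f t‖ ^ 2 = 1 - c ^ 2 := by
        rw [@norm_sub_sq ℂ, norm_smul, hfn, hx, inner_smul_right, Complex.norm_real]
        simp only [RCLike.re_to_complex, Complex.re_ofReal_mul, ← hc]
        rw [mul_one, Real.norm_eq_abs, sq_abs]
        ring
      have h3 : ‖x - (c : ℂ) • f t‖ = √(1 - c ^ 2) := by
        rw [← h2, Real.sqrt_sq (norm_nonneg _)]
      rw [h1]
      calc _ ≤ ‖x - (c : ℂ) • f t‖ * ‖g t‖ := hcs _ _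
        _ ≤ √(1 - c ^ 2) * D := by
            rw [h3]
            exact mul_le_mul_of_nonneg_left (hgn t) (Real.sqrt_nonneg _)
        _ = _ := mul_comm _ _)
  change Real.cos D ≤ (⟪x, f 1⟫_ℂ).re at hmain
  rwa [e1] at hmain

end Pool.Agent.H434
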