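import Mathlib

set_option autoImplicit false

open Real Finset

namespace Pool.Agent.H434

lemma hasSum_val {ι : Type*} {f : ι → ℝ} {a b : ℝ} (h : HasSum f a) (e : b = a) : HasSum f b := by
  rw [e]; exact h

lemma hasSum_cos_sq (x : ℝ) (h0 : 0 ≤ x) (h1 : x ≤ 2 * π) :
    HasSum (fun n : ℕ => Real.cos (n * x) / (n : ℝ) ^ 2) (π ^ 2 / 6 - π * x / 2 + x ^ 2 / 4) := by
  have hpi := Real.pi_pos
  have h := hasSum_one_div_nat_pow_mul_cos (k := 1) (by norm_num) (x := x / (2 * π))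
    ⟨by positivity, by rw [div_le_one (by positivity)]; exact h1⟩
  convert h using 1
  · funext n
    have : 2 * π * n * (x / (2 * π)) = n * x := by field_simp
    rw [this]; ring
  · simp only [Polynomial.bernoulli_def, mul_one]
    simp [Finset.sum_range_succ, Polynomial.eval_add, Polynomial.map_add, bernoulli_two,
      bernoulli_one, bernoulli_zero]
    field_simp
    ring

lemma hasSum_cos_four (x : ℝ) (h0 : 0 ≤ x) (h1 : x ≤ 2 * π) :
    HasSum (fun n : ℕ => Real.cos (n * x) / (n : ℝ) ^ 4)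
      (π ^ 4 / 90 - π ^ 2 * x ^ 2 / 12 + π * x ^ 3 / 12 - x ^ 4 / 48) := by
  have hpi := Real.pi_pos
  have h := hasSum_one_div_nat_pow_mul_cos (k := 2) (by norm_num) (x := x / (2 * π))
    ⟨by positivity, by rw [div_le_one (by positivity)]; exact h1⟩
  have b3 : _root_.bernoulli 3 = 0 := by
    rw [bernoulli_eq_bernoulli'_of_ne_one (by norm_num), bernoulli'_three]
  have b4 : _root_.bernoulli 4 = -1/30 := by
    rw [bernoulli_eq_bernoulli'_of_ne_one (by norm_num), bernoulli'_four]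
  convert h using 1
  · funext n
    have : 2 * π * n * (x / (2 * π)) = n * x := by field_simp
    rw [this]; ring
  · simp only [Polynomial.bernoulli_def, show 2 * 2 = 4 by norm_num]
    simp [Finset.sum_range_succ, Polynomial.eval_add, Polynomial.map_add, bernoulli_two,
      bernoulli_one, bernoulli_zero, b3, b4, Nat.choose, Nat.factorial]
    field_simp
    ring

/-- The characteristic function vanishes. -/
lemma hasSum_sin_cos (θ t : ℝ) (hθ : 0 < θ) (h1 : 4 * θ ≤ t) (h2 : t + 4 * θ ≤ 2 * π) :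
    HasSum (fun n : ℕ => (Real.sin (n * θ)) ^ 4 * Real.cos (n * t) / (n : ℝ) ^ 4) (-θ ^ 4 / 2) := by
  have e1 := (hasSum_cos_four (t - 4 * θ) (by linarith) (by linarith)).mul_left (1 / 16 : ℝ)
  have e2 := (hasSum_cos_four (t - 2 * θ) (by linarith) (by linarith)).mul_left (-4 / 16 : ℝ)
  have e3 := (hasSum_cos_four t (by linarith) (by linarith)).mul_left (6 / 16 : ℝ)
  have e4 := (hasSum_cos_four (t + 2 * θ) (by linarith) (by linarith)).mul_left (-4 / 16 : ℝ)
  have e5 := (hasSum_cos_four (t + 4 * θ) (by linarith) (by linarith)).mul_left (1 / 16 : ℝ)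
  have H := (((e1.add e2).add e3).add e4).add e5
  have e : (fun n : ℕ => (Real.sin (n * θ)) ^ 4 * Real.cos (n * t) / (n : ℝ) ^ 4) =
      fun n : ℕ => 1 / 16 * (Real.cos (n * (t - 4 * θ)) / (n : ℝ) ^ 4) +
        -4 / 16 * (Real.cos (n * (t - 2 * θ)) / (n : ℝ) ^ 4) +
        6 / 16 * (Real.cos (n * t) / (n : ℝ) ^ 4) +
        -4 / 16 * (Real.cos (n * (t + 2 * θ)) / (n : ℝ) ^ 4) +
        1 / 16 * (Real.cos (n * (t + 4 * θ)) / (n : ℝ) ^ 4) := by
    funext n
    have a1 : (n : ℝ) * (t - 4 * θ) = n * t - 4 * (n * θ) := by ring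
    have a2 : (n : ℝ) * (t - 2 * θ) = n * t - 2 * (n * θ) := by ring
    have a3 : (n : ℝ) * (t + 2 * θ) = n * t + 2 * (n * θ) := by ring
    have a4 : (n : ℝ) * (t + 4 * θ) = n * t + 4 * (n * θ) := by ring
    rw [a1, a2, a3, a4]
    set y := (n : ℝ) * θ
    set z := (n : ℝ) * t
    have c2 : Real.cos (2 * y) = 1 - 2 * Real.sin y ^ 2 := by
      rw [Real.cos_two_mul]; nlinarith [Real.sin_sq_add_cos_sq y]
    have c4 : Real.cos (4 * y) = 2 * Real.cos (2 * y) ^ 2 - 1 := by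
      rw [show 4 * y = 2 * (2 * y) by ring, Real.cos_two_mul]
    have k1 : Real.cos (z - 4 * y) + Real.cos (z + 4 * y) = 2 * Real.cos z * Real.cos (4 * y) := by
      rw [Real.cos_sub, Real.cos_add]; ring
    have k2 : Real.cos (z - 2 * y) + Real.cos (z + 2 * y) = 2 * Real.cos z * Real.cos (2 * y) := by
      rw [Real.cos_sub, Real.cos_add]; ring
    have k3 : (Real.sin y) ^ 4 * Real.cos z = 1 / 16 * (Real.cos (z - 4 * y) + Real.cos (z + 4 * y))
        - 4 / 16 * (Real.cos (z - 2 * y) + Real.cos (z + 2 * y)) + 6 / 16 * Real.cos z := by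
      rw [k1, k2, c4, c2]; ring
    rw [k3]; ring
  rw [e]
  exact hasSum_val H (by ring)

lemma hasSum_sin_four (θ : ℝ) (hθ : 0 < θ) (h2 : 4 * θ ≤ 2 * π) :
    HasSum (fun n : ℕ => (Real.sin (n * θ)) ^ 4 / (n : ℝ) ^ 4) (π * θ ^ 3 / 3 - θ ^ 4 / 2) := by
  have e1 := (hasSum_cos_four (4 * θ) (by linarith) (by linarith)).mul_left (1 / 8 : ℝ)
  have e2 := (hasSum_cos_four (2 * θ) (by linarith) (by linarith)).mul_left (-4 / 8 : ℝ)
  have e3 := (hasSum_cos_four 0 le_rfl (by positivity)).mul_left (3 / 8 : ℝ)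
  have H := (e1.add e2).add e3
  have e : (fun n : ℕ => (Real.sin (n * θ)) ^ 4 / (n : ℝ) ^ 4) =
      fun n : ℕ => 1 / 8 * (Real.cos (n * (4 * θ)) / (n : ℝ) ^ 4) +
        -4 / 8 * (Real.cos (n * (2 * θ)) / (n : ℝ) ^ 4) +
        3 / 8 * (Real.cos (n * 0) / (n : ℝ) ^ 4) := by
    funext n
    have a1 : (n : ℝ) * (4 * θ) = 4 * (n * θ) := by ring
    have a2 : (n : ℝ) * (2 * θ) = 2 * (n * θ) := by ring
    rw [a1, a2, mul_zero, Real.cos_zero]
    set y := (n : ℝ) * θ
    have c2 : Real.cos (2 * y) = 1 - 2 * Real.sin y ^ 2 := by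
      rw [Real.cos_two_mul]; nlinarith [Real.sin_sq_add_cos_sq y]
    have c4 : Real.cos (4 * y) = 2 * Real.cos (2 * y) ^ 2 - 1 := by
      rw [show 4 * y = 2 * (2 * y) by ring, Real.cos_two_mul]
    rw [c4, c2]; ring
  rw [e]
  exact hasSum_val H (by ring)

lemma hasSum_sin_two (θ : ℝ) (hθ : 0 < θ) (h2 : 4 * θ ≤ 2 * π) :
    HasSum (fun n : ℕ => (Real.sin (n * θ)) ^ 4 / (n : ℝ) ^ 2) (π * θ / 4) := by
  have e1 := (hasSum_cos_sq (4 * θ) (by linarith) (by linarith)).mul_left (1 / 8 : ℝ)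
  have e2 := (hasSum_cos_sq (2 * θ) (by linarith) (by linarith)).mul_left (-4 / 8 : ℝ)
  have e3 := (hasSum_cos_sq 0 le_rfl (by positivity)).mul_left (3 / 8 : ℝ)
  have H := (e1.add e2).add e3
  have e : (fun n : ℕ => (Real.sin (n * θ)) ^ 4 / (n : ℝ) ^ 2) =
      fun n : ℕ => 1 / 8 * (Real.cos (n * (4 * θ)) / (n : ℝ) ^ 2) +
        -4 / 8 * (Real.cos (n * (2 * θ)) / (n : ℝ) ^ 2) +
        3 / 8 * (Real.cos (n * 0) / (n : ℝ) ^ 2) := by
    funext n
    have a1 : (n : ℝ) * (4 * θ) = 4 * (n * θ) := by ring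
    have a2 : (n : ℝ) * (2 * θ) = 2 * (n * θ) := by ring
    rw [a1, a2, mul_zero, Real.cos_zero]
    set y := (n : ℝ) * θ
    have c2 : Real.cos (2 * y) = 1 - 2 * Real.sin y ^ 2 := by
      rw [Real.cos_two_mul]; nlinarith [Real.sin_sq_add_cos_sq y]
    have c4 : Real.cos (4 * y) = 2 * Real.cos (2 * y) ^ 2 - 1 := by
      rw [show 4 * y = 2 * (2 * y) by ring, Real.cos_two_mul]
    rw [c4, c2]; ring
  rw [e]
  exact hasSum_val H (by ring)

/-- even extension of a sum over the natural numbers to the integers -/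
lemma hasSum_int (f : ℕ → ℝ) (c s : ℝ) (F : ℤ → ℝ) (hf0 : f 0 = 0) (hf : HasSum f s)
    (hF0 : F 0 = c) (hF : ∀ n : ℕ, n ≠ 0 → F n = f n ∧ F (-(n : ℤ)) = f n) :
    HasSum F (2 * s + c) := by
  have h1 : HasSum (fun n : ℕ => f n + (if n = 0 then c else 0)) (s + c) :=
    hf.add (hasSum_ite_eq 0 c)
  have h2 : HasSum (fun n : ℕ => F n) (s + c) := by
    convert h1 using 1
    funext n
    rcases eq_or_ne n 0 with rfl | hn
    · simp [hf0, hF0]
    · simp [hn, (hF n hn).1]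
  have h3 : HasSum (fun n : ℕ => F (-(n : ℤ))) (s + c) := by
    convert h1 using 1
    funext n
    rcases eq_or_ne n 0 with rfl | hn
    · simp [hf0, hF0]
    · simp [hn, (hF n hn).2]
  have h4 := HasSum.of_nat_of_neg h2 h3
  exact hasSum_val h4 (by rw [hF0]; ring)

/-- the weights -/
noncomputable def w (θ : ℝ) (k : ℤ) : ℝ :=
  if k = 0 then θ ^ 4 else (Real.sin (k * θ)) ^ 4 / (k : ℝ) ^ 4

lemma w_nonneg (θ : ℝ) (k : ℤ) : 0 ≤ w θ k := by
  unfold w; split_ifs <;> positivity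

lemma hasSum_w (θ : ℝ) (hθ : 0 < θ) (h2 : 4 * θ ≤ 2 * π) :
    HasSum (w θ) (2 * π * θ ^ 3 / 3) := by
  have := hasSum_int _ (θ ^ 4) _ (w θ) (by simp) (hasSum_sin_four θ hθ h2) (by simp [w])
    (fun n hn => by
      constructor
      · simp [w, hn]
      · simp only [w, neg_eq_zero, Int.natCast_eq_zero, hn, if_false, Int.cast_neg,
          Int.cast_natCast, neg_mul, Real.sin_neg]
        ring)
  exact hasSum_val this (by ring)

lemma hasSum_w_sq (θ : ℝ) (hθ : 0 < θ) (h2 : 4 * θ ≤ 2 * π) :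
    HasSum (fun k : ℤ => (k : ℝ) ^ 2 * w θ k) (π * θ / 2) := by
  have := hasSum_int _ 0 _ (fun k : ℤ => (k : ℝ) ^ 2 * w θ k) (by simp)
    (hasSum_sin_two θ hθ h2) (by simp [w])
    (fun n hn => by
      have hn' : (n : ℝ) ≠ 0 := Nat.cast_ne_zero.2 hn
      constructor
      · simp only [w, Int.natCast_eq_zero, hn, if_false, Int.cast_natCast]
        field_simp
      · simp only [w, neg_eq_zero, Int.natCast_eq_zero, hn, if_false, Int.cast_neg,
          Int.cast_natCast, neg_mul, Real.sin_neg]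
        field_simp)
  exact hasSum_val this (by ring)

lemma hasSum_w_cos (θ t : ℝ) (hθ : 0 < θ) (h1 : 4 * θ ≤ t) (h2 : t + 4 * θ ≤ 2 * π) :
    HasSum (fun k : ℤ => w θ k * Real.cos (k * t)) 0 := by
  have := hasSum_int _ (θ ^ 4) _ (fun k : ℤ => w θ k * Real.cos (k * t)) (by simp)
    (hasSum_sin_cos θ t hθ h1 h2) (by simp [w])
    (fun n hn => by
      have hn' : (n : ℝ) ≠ 0 := Nat.cast_ne_zero.2 hn
      constructor
      · simp only [w, Int.natCast_eq_zero, hn, if_false, Int.cast_natCast]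
        ring
      · simp only [w, neg_eq_zero, Int.natCast_eq_zero, hn, if_false, Int.cast_neg,
          Int.cast_natCast, neg_mul, Real.sin_neg, Real.cos_neg]
        ring)
  exact hasSum_val this (by ring)

end Pool.Agent.H434
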