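import Mathlib
import Pool.Agent.H434.Kernel

set_option autoImplicit false

open MeasureTheory Real
open scoped ENNReal

namespace Pool.Agent.H434

/-- the probability weights on the integers -/
noncomputable def pm (θ : ℝ) (hθ : 0 < θ) (h2 : 4 * θ ≤ 2 * π) : PMF ℤ :=
  ⟨fun k => ENNReal.ofReal (w θ k / (2 * π * θ ^ 3 / 3)), by
    have hZ : (0 : ℝ) < 2 * π * θ ^ 3 / 3 := by positivity
    have h := (hasSum_w θ hθ h2).div_const (2 * π * θ ^ 3 / 3)
    rw [div_self hZ.ne'] at h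
    rw [ENNReal.summable.hasSum_iff, ← ENNReal.ofReal_tsum_of_nonneg
      (fun k => div_nonneg (w_nonneg θ k) hZ.le) h.summable, h.tsum_eq, ENNReal.ofReal_one]⟩

lemma pm_apply (θ : ℝ) (hθ : 0 < θ) (h2 : 4 * θ ≤ 2 * π) (k : ℤ) :
    (pm θ hθ h2 k).toReal = w θ k / (2 * π * θ ^ 3 / 3) := by
  change (ENNReal.ofReal (w θ k / (2 * π * θ ^ 3 / 3))).toReal = _
  rw [ENNReal.toReal_ofReal (div_nonneg (w_nonneg θ k) (by positivity))]

lemma integrable_pmf (q : PMF ℤ) (f : ℤ → ℝ) (h : Summable fun k => (q k).toReal * ‖f k‖) :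
    Integrable f q.toMeasure := by
  refine ⟨(Measurable.of_discrete).aestronglyMeasurable, ?_⟩
  rw [HasFiniteIntegral, lintegral_countable']
  have e : ∀ k, ‖f k‖ₑ * q.toMeasure {k} = ENNReal.ofReal ((q k).toReal * ‖f k‖) := by
    intro k
    rw [PMF.toMeasure_apply_singleton q k (MeasurableSet.singleton _),
      ENNReal.ofReal_mul ENNReal.toReal_nonneg, ENNReal.ofReal_toReal (q.apply_ne_top k),
      ofReal_norm, mul_comm]
  simp_rw [e]
  exact h.tsum_ofReal_lt_top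

lemma hasSum_odd (f : ℤ → ℝ) (hs : Summable f) (hodd : ∀ k, f (-k) = - f k) : HasSum f 0 := by
  have h1 : ∑' k, f k = - ∑' k, f k := by
    conv_lhs => rw [← (Equiv.neg ℤ).tsum_eq f]
    rw [← tsum_neg]
    exact tsum_congr hodd
  have h2 : ∑' k, f k = 0 := by linarith
  rw [← h2]
  exact hs.hasSum

/-- the characteristic function vanishes -/
lemma integral_char (θ s : ℝ) (hθ : 0 < θ) (h2 : 4 * θ ≤ 2 * π) (h1 : 4 * θ ≤ |s|)
    (h3 : |s| + 4 * θ ≤ 2 * π) :
    ∫ k : ℤ, Complex.exp (((k : ℝ) * s : ℝ) * Complex.I) ∂(pm θ hθ h2).toMeasure = 0 := by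
  have hZ : (0 : ℝ) < 2 * π * θ ^ 3 / 3 := by positivity
  have hint : Integrable (fun k : ℤ => Complex.exp (((k : ℝ) * s : ℝ) * Complex.I))
      (pm θ hθ h2).toMeasure := by
    refine Integrable.of_bound (C := 1) (Measurable.of_discrete).aestronglyMeasurable ?_
    exact Filter.Eventually.of_forall fun k => by rw [Complex.norm_exp_ofReal_mul_I]
  rw [PMF.integral_eq_tsum _ _ hint]
  refine HasSum.tsum_eq ?_
  have hw := hasSum_w θ hθ h2
  rw [Complex.hasSum_iff]
  constructor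
  · have h := (hasSum_w_cos θ |s| hθ h1 h3).div_const (2 * π * θ ^ 3 / 3)
    rw [zero_div] at h
    rw [Complex.zero_re]
    refine h.congr_fun ?_
    intro k
    rw [Complex.smul_re, Complex.exp_ofReal_mul_I_re, pm_apply, smul_eq_mul]
    have : Real.cos ((k : ℝ) * |s|) = Real.cos ((k : ℝ) * s) := by
      rcases abs_choice s with h | h
      · rw [h]
      · rw [h, mul_neg, Real.cos_neg]
    rw [this]; ring
  · rw [Complex.zero_im]
    refine hasSum_odd _ ?_ ?_
    · refine Summable.of_norm_bounded (g := fun k => w θ k / (2 * π * θ ^ 3 / 3))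
        (hw.div_const _).summable ?_
      intro k
      rw [Complex.smul_im, Complex.exp_ofReal_mul_I_im, pm_apply, smul_eq_mul, norm_mul,
        Real.norm_of_nonneg (div_nonneg (w_nonneg θ k) hZ.le)]
      exact mul_le_of_le_one_right (div_nonneg (w_nonneg θ k) hZ.le) (Real.abs_sin_le_one _)
    · intro k
      rw [Complex.smul_im, Complex.exp_ofReal_mul_I_im, pm_apply, smul_eq_mul,
        Complex.smul_im, Complex.exp_ofReal_mul_I_im, pm_apply, smul_eq_mul]
      have e1 : w θ (-k) = w θ k := by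
        unfold w
        by_cases hk : k = 0
        · simp [hk]
        · rw [if_neg hk, if_neg (neg_ne_zero.2 hk)]
          push_cast
          rw [neg_mul, Real.sin_neg]
          ring
      rw [e1]
      push_cast
      rw [neg_mul, Real.sin_neg]
      ring

lemma integrable_sq (θ : ℝ) (hθ : 0 < θ) (h2 : 4 * θ ≤ 2 * π) :
    Integrable (fun k : ℤ => (k : ℝ) ^ 2) (pm θ hθ h2).toMeasure := by
  refine integrable_pmf _ _ ?_
  have h := ((hasSum_w_sq θ hθ h2).div_const (2 * π * θ ^ 3 / 3)).summable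
  refine h.congr ?_
  intro k
  rw [pm_apply, Real.norm_of_nonneg (sq_nonneg _)]
  ring

lemma integral_sq (θ : ℝ) (hθ : 0 < θ) (h2 : 4 * θ ≤ 2 * π) :
    ∫ k : ℤ, (k : ℝ) ^ 2 ∂(pm θ hθ h2).toMeasure = 3 / (4 * θ ^ 2) := by
  rw [PMF.integral_eq_tsum _ _ (integrable_sq θ hθ h2)]
  refine HasSum.tsum_eq ?_
  have h := (hasSum_w_sq θ hθ h2).div_const (2 * π * θ ^ 3 / 3)
  have e : 3 / (4 * θ ^ 2) = π * θ / 2 / (2 * π * θ ^ 3 / 3) := by
    field_simp
    try ring
  rw [e]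
  refine h.congr_fun ?_
  intro k
  rw [pm_apply, smul_eq_mul]
  ring

variable {K : ℕ}

/-- the product measure -/
noncomputable def mu (K : ℕ) (θ : ℝ) (hθ : 0 < θ) (h2 : 4 * θ ≤ 2 * π) : Measure (Fin K → ℤ) :=
  Measure.pi (fun _ : Fin K => (pm θ hθ h2).toMeasure)

instance (θ : ℝ) (hθ : 0 < θ) (h2 : 4 * θ ≤ 2 * π) : IsProbabilityMeasure (mu K θ hθ h2) := by
  unfold mu; infer_instance

lemma char_pi (θ η : ℝ) (hθ : 0 < θ) (h2 : 4 * θ ≤ 2 * π) (v : Fin K → ℝ) (J0 : Fin K)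
    (h1 : 4 * θ ≤ |η * v J0|) (h3 : |η * v J0| + 4 * θ ≤ 2 * π) :
    ∫ k : Fin K → ℤ, Complex.exp ((∑ J, (η * (k J : ℝ)) * v J : ℝ) * Complex.I)
      ∂(mu K θ hθ h2) = 0 := by
  have e : ∀ k : Fin K → ℤ, Complex.exp ((∑ J, (η * (k J : ℝ)) * v J : ℝ) * Complex.I) =
      ∏ J, (fun (J : Fin K) (m : ℤ) => Complex.exp (((m : ℝ) * (η * v J) : ℝ) * Complex.I))
        J (k J) := by
    intro k
    rw [← Complex.exp_sum]
    congr 1
    rw [← Finset.sum_mul]
    congr 1
    push_cast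
    exact Finset.sum_congr rfl fun J _ => by ring
  have hp := integral_fintype_prod_eq_prod (μ := fun _ : Fin K => (pm θ hθ h2).toMeasure)
    (fun (J : Fin K) (m : ℤ) => Complex.exp (((m : ℝ) * (η * v J) : ℝ) * Complex.I))
  rw [integral_congr_ae (Filter.Eventually.of_forall e)]
  unfold mu
  rw [hp]
  exact Finset.prod_eq_zero (Finset.mem_univ J0) (integral_char θ (η * v J0) hθ h2 h1 h3)

lemma integrable_sum_sq (θ η : ℝ) (hθ : 0 < θ) (h2 : 4 * θ ≤ 2 * π) :
    Integrable (fun k : Fin K → ℤ => ∑ J, (η * (k J : ℝ)) ^ 2) (mu K θ hθ h2) := by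
  refine integrable_finsetSum _ fun J _ => ?_
  have h := (measurePreserving_eval (fun _ : Fin K => (pm θ hθ h2).toMeasure) J)
  have h' : Integrable (fun k : Fin K → ℤ => ((k J : ℤ) : ℝ) ^ 2) (mu K θ hθ h2) :=
    h.integrable_comp_of_integrable (integrable_sq θ hθ h2)
  refine (h'.const_mul (η ^ 2)).congr ?_
  exact Filter.Eventually.of_forall fun k => by ring

lemma integral_sum_sq (θ η : ℝ) (hθ : 0 < θ) (h2 : 4 * θ ≤ 2 * π) :
    ∫ k : Fin K → ℤ, ∑ J, (η * (k J : ℝ)) ^ 2 ∂(mu K θ hθ h2) =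
      K * (η ^ 2 * (3 / (4 * θ ^ 2))) := by
  have h1 : ∀ J : Fin K, Integrable (fun k : Fin K → ℤ => ((k J : ℤ) : ℝ) ^ 2) (mu K θ hθ h2) :=
    fun J => (measurePreserving_eval (fun _ : Fin K =>
      (pm θ hθ h2).toMeasure) J).integrable_comp_of_integrable (integrable_sq θ hθ h2)
  have h3 : ∀ J : Fin K, ∫ k : Fin K → ℤ, ((k J : ℤ) : ℝ) ^ 2 ∂(mu K θ hθ h2) =
      3 / (4 * θ ^ 2) := by
    intro J
    have hm := measurePreserving_eval (fun _ : Fin K => (pm θ hθ h2).toMeasure) J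
    rw [← integral_sq θ hθ h2, ← hm.map_eq,
      integral_map hm.measurable.aemeasurable (Measurable.of_discrete).aestronglyMeasurable]
    rfl
  rw [integral_finsetSum _ (fun J _ => ?_)]
  · have : ∀ J : Fin K, ∫ k : Fin K → ℤ, (η * (k J : ℝ)) ^ 2 ∂(mu K θ hθ h2) =
        η ^ 2 * (3 / (4 * θ ^ 2)) := by
      intro J
      rw [← h3 J, ← integral_const_mul]
      congr 1
      funext k
      ring
    simp [this]
  · refine ((h1 J).const_mul (η ^ 2)).congr ?_
    exact Filter.Eventually.of_forall fun k => by ring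

end Pool.Agent.H434
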