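import Mathlib
import Pool.Agent.H434.Core
import Pool.Agent.H434.Angle

set_option autoImplicit false

open MeasureTheory Real
open scoped InnerProductSpace ComplexConjugate

namespace Pool.Agent.H434

variable {V ι : Type*} [NormedAddCommGroup V] [InnerProductSpace ℂ V] [Fintype ι]

lemma cos_ge_quad (t : ℝ) (h0 : 0 ≤ t) (hπ : t ≤ Real.pi) :
    Real.pi / 4 - t ^ 2 / Real.pi ≤ Real.cos t := by
  have hpi := Real.pi_pos
  set f : ℝ → ℝ := fun t => Real.cos t - Real.pi / 4 + t ^ 2 / Real.pi with hf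
  have hd : ∀ t, HasDerivAt f (-Real.sin t + 2 * t / Real.pi) t := by
    intro t
    have := ((Real.hasDerivAt_cos t).sub_const (Real.pi / 4)).add
      ((hasDerivAt_pow 2 t).div_const Real.pi)
    refine this.congr_deriv ?_
    simp
  have hcont : Continuous f := continuous_iff_continuousAt.2 fun t => (hd t).continuousAt
  have hmid : f (Real.pi / 2) = 0 := by
    simp only [hf]
    rw [Real.cos_pi_div_two]
    field_simp
    ring
  have hft : 0 ≤ f t := by
    rcases le_total t (Real.pi / 2) with h | h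
    · have hanti : AntitoneOn f (Set.Icc 0 (Real.pi / 2)) := by
        refine antitoneOn_of_deriv_nonpos (convex_Icc _ _) hcont.continuousOn
          (fun y _ => (hd y).differentiableAt.differentiableWithinAt) ?_
        intro y hy
        rw [interior_Icc] at hy
        rw [(hd y).deriv]
        have := Real.mul_le_sin hy.1.le hy.2.le
        have e : 2 * y / Real.pi = 2 / Real.pi * y := by ring
        rw [e]
        linarith
      rw [← hmid]
      exact hanti ⟨h0, h⟩ ⟨by positivity, le_rfl⟩ h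
    · have hmono : MonotoneOn f (Set.Icc (Real.pi / 2) Real.pi) := by
        refine monotoneOn_of_deriv_nonneg (convex_Icc _ _) hcont.continuousOn
          (fun y _ => (hd y).differentiableAt.differentiableWithinAt) ?_
        intro y hy
        rw [interior_Icc] at hy
        rw [(hd y).deriv]
        have h1 := Real.sin_le_one y
        have h2 : 1 ≤ 2 * y / Real.pi := by
          rw [le_div_iff₀ hpi]
          linarith [hy.1]
        linarith
      rw [← hmid]
      exact hmono ⟨le_rfl, by linarith⟩ ⟨h, hπ⟩ h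
  simp only [hf] at hft
  linarith

lemma core2 {K : ℕ} (μ : Measure (Fin K → ℤ)) [IsProbabilityMeasure μ]
    (u v : OrthonormalBasis ι ℂ V) (a b : (Fin K → ℤ) → ι → ℝ) (x : V)
    (hchar : ∀ i j, ⟪u i, x⟫_ℂ ≠ 0 → ⟪v j, x⟫_ℂ ≠ 0 →
      ∫ ω, Complex.exp ((b ω j - a ω i : ℝ) * Complex.I) ∂μ = 0) :
    Integrable (fun ω => (⟪ph u (a ω) x, ph v (b ω) x⟫_ℂ).re) μ ∧
    ∫ ω, (⟪ph u (a ω) x, ph v (b ω) x⟫_ℂ).re ∂μ = 0 := by
  have hI : ∀ i j, Integrable (fun ω => (conj ⟪u i, x⟫_ℂ * ⟪v j, x⟫_ℂ * ⟪u i, v j⟫_ℂ) *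
      Complex.exp ((b ω j - a ω i : ℝ) * Complex.I)) μ := by
    intro i j
    refine Integrable.const_mul ?_ _
    refine Integrable.of_bound (C := 1) (Measurable.of_discrete).aestronglyMeasurable ?_
    exact Filter.Eventually.of_forall fun k => by rw [Complex.norm_exp_ofReal_mul_I]
  have hI2 : Integrable (fun ω => ⟪ph u (a ω) x, ph v (b ω) x⟫_ℂ) μ := by
    simp_rw [inner_ph_ph]
    exact integrable_finsetSum _ fun i _ => integrable_finsetSum _ fun j _ => hI i j
  have h0 : ∫ ω, ⟪ph u (a ω) x, ph v (b ω) x⟫_ℂ ∂μ = 0 := by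
    simp_rw [inner_ph_ph]
    rw [integral_finsetSum _ fun i _ => integrable_finsetSum _ fun j _ => hI i j]
    refine Finset.sum_eq_zero fun i _ => ?_
    rw [integral_finsetSum _ fun j _ => hI i j]
    refine Finset.sum_eq_zero fun j _ => ?_
    rw [integral_const_mul]
    by_cases h1 : ⟪u i, x⟫_ℂ = 0
    · rw [h1]; simp
    by_cases h2 : ⟪v j, x⟫_ℂ = 0
    · rw [h2]; simp
    rw [hchar i j h1 h2, mul_zero]
  refine ⟨hI2.re, ?_⟩
  have := integral_re hI2
  simp only [RCLike.re_to_complex] at this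
  rw [this, h0, Complex.zero_re]

theorem main_ineq2 {K : ℕ} (hK : 0 < K) (u v : OrthonormalBasis ι ℂ V) (α β : ι → Fin K → ℝ)
    (A B : Fin K → V →ₗ[ℂ] V)
    (hA : ∀ i J, A J (u i) = (α i J : ℂ) • u i) (hB : ∀ i J, B J (v i) = (β i J : ℂ) • v i)
    (D : ℝ) (hD0 : 0 ≤ D) (hD : ∀ y, ∑ J, ‖B J y - A J y‖ ^ 2 ≤ (D * ‖y‖) ^ 2)
    (d : ℝ) (hd : 0 < d) (x : V) (hx : ‖x‖ = 1)
    (hsep : ∀ i j, ⟪u i, x⟫_ℂ ≠ 0 → ⟪v j, x⟫_ℂ ≠ 0 → d ^ 2 ≤ ∑ J, (β j J - α i J) ^ 2) :
    Real.pi ^ 2 * d ^ 2 ≤ 48 * (K : ℝ) ^ 2 * D ^ 2 := by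
  have hpi := Real.pi_pos
  have hK' : (0 : ℝ) < K := Nat.cast_pos.2 hK
  -- a bound for all coordinate differences
  set R : ℝ := ∑ i, ∑ j, ∑ J, |β j J - α i J| with hR
  have hR0 : 0 ≤ R := by positivity
  have hRb : ∀ i j J, |β j J - α i J| ≤ R := by
    intro i j J
    calc |β j J - α i J| ≤ ∑ J, |β j J - α i J| :=
          Finset.single_le_sum (f := fun J => |β j J - α i J|) (fun _ _ => abs_nonneg _)
            (Finset.mem_univ J)
      _ ≤ ∑ j, ∑ J, |β j J - α i J| :=
          Finset.single_le_sum (f := fun j => ∑ J, |β j J - α i J|)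
            (fun _ _ => Finset.sum_nonneg fun _ _ => abs_nonneg _) (Finset.mem_univ j)
      _ ≤ R := Finset.single_le_sum (f := fun i => ∑ j, ∑ J, |β j J - α i J|)
            (fun _ _ => Finset.sum_nonneg fun _ _ => Finset.sum_nonneg fun _ _ => abs_nonneg _)
            (Finset.mem_univ i)
  set e : ℝ := d / √K with he
  have he0 : 0 < e := by positivity
  have he2 : K * e ^ 2 = d ^ 2 := by
    rw [he, div_pow, Real.sq_sqrt hK'.le]
    field_simp
  have hcoord : ∀ i j, ⟪u i, x⟫_ℂ ≠ 0 → ⟪v j, x⟫_ℂ ≠ 0 → ∃ J, e ≤ |β j J - α i J| := by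
    intro i j h1 h2
    by_contra hcon
    push Not at hcon
    have hlt : ∑ J, (β j J - α i J) ^ 2 < ∑ _J : Fin K, e ^ 2 := by
      refine Finset.sum_lt_sum_of_nonempty ⟨⟨0, hK⟩, Finset.mem_univ _⟩ fun J _ => ?_
      rw [← sq_abs]
      exact pow_lt_pow_left₀ (hcon J) (abs_nonneg _) two_ne_zero
    rw [Finset.sum_const, Finset.card_univ, Fintype.card_fin, nsmul_eq_mul, he2] at hlt
    exact absurd (hsep i j h1 h2) (not_le.2 hlt)
  set θ : ℝ := 2 * π / (4 * R / e + 4) with hθdef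
  have hden : (0 : ℝ) < 4 * R / e + 4 := by positivity
  have hθ : 0 < θ := by positivity
  have hθe : θ * (4 * R / e + 4) = 2 * π := by rw [hθdef]; field_simp
  have h2 : 4 * θ ≤ 2 * π := by
    rw [← hθe]
    have : 0 ≤ θ * (4 * R / e) := by positivity
    linarith
  set η : ℝ := 4 * θ / e with hη
  have hη0 : 0 < η := by positivity
  have hηR : η * R + 4 * θ = 2 * π := by
    rw [← hθe, hη]
    ring
  have hηe : η * e = 4 * θ := by rw [hη]; field_simp
  set a : (Fin K → ℤ) → ι → ℝ := fun ω i => ∑ J, (η * (ω J : ℝ)) * α i J with ha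
  set b : (Fin K → ℤ) → ι → ℝ := fun ω i => ∑ J, (η * (ω J : ℝ)) * β i J with hb
  have hcore := core2 (mu K θ hθ h2) u v a b x (by
    intro i j h1 h3
    obtain ⟨J0, hJ0⟩ := hcoord i j h1 h3
    have hab : ∀ ω, b ω j - a ω i = ∑ J, (η * (ω J : ℝ)) * (β j J - α i J) := by
      intro ω
      simp only [ha, hb]
      rw [← Finset.sum_sub_distrib]
      exact Finset.sum_congr rfl fun J _ => by ring
    simp_rw [hab]
    refine char_pi θ η hθ h2 (fun J => β j J - α i J) J0 ?_ ?_
    · rw [abs_mul, abs_of_pos hη0, ← hηe]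
      exact mul_le_mul_of_nonneg_left hJ0 hη0.le
    · rw [abs_mul, abs_of_pos hη0, ← hηR]
      have := mul_le_mul_of_nonneg_left (hRb i j J0) hη0.le
      linarith)
  have hpt : ∀ ω, Real.pi / 4 - D ^ 2 / Real.pi * ∑ J, (η * (ω J : ℝ)) ^ 2 ≤
      (⟪ph u (a ω) x, ph v (b ω) x⟫_ℂ).re := by
    intro ω
    set r : Fin K → ℝ := fun J => η * (ω J : ℝ) with hr
    have hS0 : 0 ≤ ∑ J, r J ^ 2 := Finset.sum_nonneg fun _ _ => sq_nonneg _
    set t : ℝ := √(∑ J, r J ^ 2) * D with ht
    have ht0 : 0 ≤ t := by positivity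
    have ht2 : t ^ 2 = D ^ 2 * ∑ J, r J ^ 2 := by
      rw [ht, mul_pow, Real.sq_sqrt hS0]
      ring
    have hgoal : Real.pi / 4 - D ^ 2 / Real.pi * ∑ J, r J ^ 2 = Real.pi / 4 - t ^ 2 / Real.pi := by
      rw [ht2]
      ring
    change Real.pi / 4 - D ^ 2 / Real.pi * ∑ J, r J ^ 2 ≤ _
    rw [hgoal]
    by_cases htπ : t ≤ Real.pi
    · refine (cos_ge_quad t ht0 htπ).trans ?_
      refine angle_bound u v (a ω) (b ω) (∑ J, (r J : ℂ) • A J) (∑ J, (r J : ℂ) • B J) ?_ ?_ t
        ht0 htπ ?_ x hx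
      · intro i
        simp only [LinearMap.sum_apply, LinearMap.smul_apply, hA, ha, smul_smul, hr]
        rw [← Finset.sum_smul]
        push_cast
        rfl
      · intro i
        simp only [LinearMap.sum_apply, LinearMap.smul_apply, hB, hb, smul_smul, hr]
        rw [← Finset.sum_smul]
        push_cast
        rfl
      · intro y
        simp only [LinearMap.sum_apply, LinearMap.smul_apply]
        rw [← Finset.sum_sub_distrib]
        calc ‖∑ J, ((r J : ℂ) • B J y - (r J : ℂ) • A J y)‖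
            ≤ ∑ J, ‖(r J : ℂ) • B J y - (r J : ℂ) • A J y‖ := norm_sum_le _ _
          _ = ∑ J, |r J| * ‖B J y - A J y‖ := by
              refine Finset.sum_congr rfl fun J _ => ?_
              rw [← smul_sub, norm_smul, Complex.norm_real, Real.norm_eq_abs]
          _ ≤ √(∑ J, |r J| ^ 2) * √(∑ J, ‖B J y - A J y‖ ^ 2) :=
              Real.sum_mul_le_sqrt_mul_sqrt _ _ _
          _ ≤ √(∑ J, r J ^ 2) * (D * ‖y‖) := by
              simp only [sq_abs]
              refine mul_le_mul_of_nonneg_left ?_ (Real.sqrt_nonneg _)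
              rw [Real.sqrt_le_left (by positivity)]
              exact hD y
          _ = √(∑ J, r J ^ 2) * D * ‖y‖ := by ring
    · push Not at htπ
      have h3 : |(⟪ph u (a ω) x, ph v (b ω) x⟫_ℂ).re| ≤ 1 := by
        refine (Complex.abs_re_le_norm _).trans ((norm_inner_le_norm _ _).trans ?_)
        rw [norm_ph, norm_ph, hx, one_mul]
      refine le_trans ?_ (abs_le.1 h3).1
      have h4 : Real.pi ≤ t ^ 2 / Real.pi := by
        rw [le_div_iff₀ hpi]
        nlinarith
      nlinarith [Real.pi_gt_three]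
  have hInt := (integrable_sum_sq (K := K) θ η hθ h2).const_mul (D ^ 2 / Real.pi)
  have hfin : Real.pi / 4 ≤ D ^ 2 / Real.pi * (K * (η ^ 2 * (3 / (4 * θ ^ 2)))) := by
    have h5 : ∫ ω, (Real.pi / 4 - D ^ 2 / Real.pi * ∑ J, (η * (ω J : ℝ)) ^ 2)
        ∂(mu K θ hθ h2) ≤ 0 := by
      rw [← hcore.2]
      exact integral_mono ((integrable_const _).sub hInt) hcore.1 hpt
    rw [integral_sub (integrable_const _) hInt, integral_const_mul,
      integral_sum_sq (K := K) θ η hθ h2] at h5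
    simp only [integral_const, probReal_univ, one_smul] at h5
    linarith
  have e1 : η ^ 2 * (3 / (4 * θ ^ 2)) = 12 / e ^ 2 := by
    rw [hη]
    field_simp
    ring
  rw [e1] at hfin
  have e2 : D ^ 2 / Real.pi * (K * (12 / e ^ 2)) * (4 * Real.pi * d ^ 2) =
      48 * (K : ℝ) ^ 2 * D ^ 2 := by
    rw [← he2]
    field_simp
    ring
  have h6 := mul_le_mul_of_nonneg_right hfin (by positivity : 0 ≤ 4 * Real.pi * d ^ 2)
  rw [e2] at h6
  calc Real.pi ^ 2 * d ^ 2 = Real.pi / 4 * (4 * Real.pi * d ^ 2) := by ring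
    _ ≤ _ := h6

theorem matching2 {K n : ℕ} (hK : 0 < K) (u v : OrthonormalBasis (Fin n) ℂ V)
    (α β : Fin n → EuclideanSpace ℝ (Fin K)) (A B : Fin K → V →ₗ[ℂ] V)
    (hA : ∀ i J, A J (u i) = (α i J : ℂ) • u i) (hB : ∀ i J, B J (v i) = (β i J : ℂ) • v i)
    (D : ℝ) (hD0 : 0 ≤ D) (hD : ∀ y, ∑ J, ‖B J y - A J y‖ ^ 2 ≤ (D * ‖y‖) ^ 2)
    (d : ℝ) (hd : 4 * √3 / Real.pi * K * D < d) :
    ∃ σ : Equiv.Perm (Fin n), ∀ i, ‖α i - β (σ i)‖ < d := by
  classical
  have hd0 : 0 < d := lt_of_le_of_lt (by positivity) hd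
  set t : Fin n → Finset (Fin n) := fun i => Finset.univ.filter fun j => ‖α i - β j‖ < d with ht
  by_cases hHall : ∀ s : Finset (Fin n), s.card ≤ (s.biUnion t).card
  · obtain ⟨f, hf, hft⟩ := (Finset.all_card_le_biUnion_card_iff_exists_injective t).1 hHall
    refine ⟨Equiv.ofBijective f (Finite.injective_iff_bijective.1 hf), fun i => ?_⟩
    have := hft i
    simp only [ht, Finset.mem_filter, Finset.mem_univ, true_and] at this
    exact this
  · exfalso
    push Not at hHall
    obtain ⟨S, hS⟩ := hHall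
    set T : Finset (Fin n) := (S.biUnion t)ᶜ with hT
    have hcard : n < S.card + T.card := by
      rw [hT, Finset.card_compl, Fintype.card_fin]
      have h1 : (S.biUnion t).card ≤ n := by simpa using Finset.card_le_univ (S.biUnion t)
      omega
    obtain ⟨x, hx, hxS, hxT⟩ := exists_vec u v S T hcard
    have hmain := main_ineq2 hK u v (fun i J => α i J) (fun i J => β i J) A B hA hB D hD0 hD d hd0
      x hx (by
        intro i j hi hj
        have hiS : i ∈ S := by
          by_contra h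
          exact hi (hxS i h)
        have hjT : j ∈ T := by
          by_contra h
          exact hj (hxT j h)
        have hge : d ≤ ‖α i - β j‖ := by
          by_contra h
          push Not at h
          rw [hT, Finset.mem_compl] at hjT
          exact hjT (Finset.mem_biUnion.2 ⟨i, hiS, by simp [ht, h]⟩)
        calc d ^ 2 ≤ ‖α i - β j‖ ^ 2 := pow_le_pow_left₀ hd0.le hge 2
          _ = ∑ J, (β j J - α i J) ^ 2 := by
            rw [EuclideanSpace.norm_sq_eq]
            refine Finset.sum_congr rfl fun J _ => ?_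
            rw [PiLp.sub_apply, Real.norm_eq_abs, sq_abs]
            ring)
    have hpi := Real.pi_pos
    have h6 : Real.pi ^ 2 * (4 * √3 / Real.pi * K * D) ^ 2 = 48 * (K : ℝ) ^ 2 * D ^ 2 := by
      rw [mul_pow, mul_pow, div_pow, mul_pow, Real.sq_sqrt (by norm_num)]
      field_simp
      ring
    have hlt : (4 * √3 / Real.pi * K * D) ^ 2 < d ^ 2 :=
      pow_lt_pow_left₀ hd (by positivity) two_ne_zero
    have h7 := mul_lt_mul_of_pos_left hlt (by positivity : 0 < Real.pi ^ 2)
    rw [h6] at h7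
    exact absurd hmain (not_le.2 h7)

end Pool.Agent.H434
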