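import Mathlib

set_option autoImplicit false

open MeasureTheory Metric
open scoped InnerProductSpace

namespace Pool.Agent.H434

/-- the disc measure -/
noncomputable def mB (ρ : ℝ) : Measure ℂ := volume.restrict (closedBall (0 : ℂ) ρ)

instance (ρ : ℝ) : IsFiniteMeasure (mB ρ) := by
  unfold mB
  exact ⟨by rw [Measure.restrict_apply_univ]; exact measure_closedBall_lt_top⟩

/-- characteristic function of the disc -/
noncomputable def Gh (ρ : ℝ) (r : ℂ) : ℂ :=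
  ∫ s, Complex.exp ((⟪r, s⟫_ℝ : ℝ) * Complex.I) ∂(mB ρ)

lemma conj_Gh (ρ : ℝ) (r : ℂ) :
    (starRingEnd ℂ) (Gh ρ r) = ∫ s, Complex.exp (((-⟪r, s⟫_ℝ : ℝ) : ℂ) * Complex.I) ∂(mB ρ) := by
  unfold Gh
  rw [← integral_conj]
  congr 1
  funext s
  rw [← Complex.exp_conj, map_mul, Complex.conj_I, Complex.conj_ofReal]
  push_cast
  ring_nf

lemma Gh_sq (ρ : ℝ) (r : ℂ) : ((‖Gh ρ r‖ ^ 2 : ℝ) : ℂ) =
    ∫ p : ℂ × ℂ, Complex.exp ((⟪r, p.1 - p.2⟫_ℝ : ℝ) * Complex.I) ∂((mB ρ).prod (mB ρ)) := by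
  rw [← Complex.normSq_eq_norm_sq, ← Complex.mul_conj, conj_Gh]
  unfold Gh
  rw [← integral_prod_mul]
  congr 1
  funext p
  rw [← Complex.exp_add, inner_sub_right]
  congr 1
  push_cast
  ring

/-- the integrand on the triple product -/
noncomputable def F3 (ε : ℝ) (s : ℂ) (q : ℂ × (ℂ × ℂ)) : ℂ :=
  (Real.exp (-ε * ‖q.1‖ ^ 2) : ℂ) * Complex.exp ((⟪q.1, s + (q.2.1 - q.2.2)⟫_ℝ : ℝ) * Complex.I)

lemma integrable_F3 (ρ ε : ℝ) (hε : 0 < ε) (s : ℂ) :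
    Integrable (F3 ε s) ((volume : Measure ℂ).prod ((mB ρ).prod (mB ρ))) := by
  have h1 : Integrable (fun v : ℂ => Real.exp (-ε * ‖v‖ ^ 2)) := by
    have := GaussianFourier.integrable_cexp_neg_mul_sq_norm_add (V := ℂ) (b := (ε : ℂ))
      (by simpa using hε) 0 0
    have h2 := this.norm
    refine h2.congr (Filter.Eventually.of_forall fun v => ?_)
    simp only [zero_mul, add_zero]
    rw [Complex.norm_exp]
    congr 1
    norm_cast
  have h2 : Integrable (fun q : ℂ × (ℂ × ℂ) => Real.exp (-ε * ‖q.1‖ ^ 2) * (1 : ℝ))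
      ((volume : Measure ℂ).prod ((mB ρ).prod (mB ρ))) :=
    h1.mul_prod (integrable_const (1 : ℝ))
  refine h2.mono' ?_ (Filter.Eventually.of_forall fun q => ?_)
  · unfold F3
    exact (Continuous.aestronglyMeasurable (by fun_prop))
  · unfold F3
    rw [norm_mul, Complex.norm_exp_ofReal_mul_I, Complex.norm_real, Real.norm_of_nonneg
      (Real.exp_pos _).le]

lemma inner_F3 (ρ ε : ℝ) (s r : ℂ) :
    ∫ p, F3 ε s (r, p) ∂((mB ρ).prod (mB ρ)) =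
      ((Real.exp (-ε * ‖r‖ ^ 2) * ‖Gh ρ r‖ ^ 2 : ℝ) : ℂ) *
        Complex.exp ((⟪r, s⟫_ℝ : ℝ) * Complex.I) := by
  unfold F3
  simp only
  rw [integral_const_mul]
  push_cast
  rw [mul_assoc]
  congr 1
  have := Gh_sq ρ r
  push_cast at this
  rw [this, mul_comm, ← integral_const_mul]
  congr 1
  funext p
  rw [← Complex.exp_add, inner_add_right]
  congr 1
  push_cast
  ring

lemma outer_F3 (ε : ℝ) (hε : 0 < ε) (s : ℂ) (p : ℂ × ℂ) :
    ∫ r, F3 ε s (r, p) =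
      ((Real.pi / ε * Real.exp (-(‖s + (p.1 - p.2)‖ ^ 2 / (4 * ε))) : ℝ) : ℂ) := by
  have h := GaussianFourier.integral_cexp_neg_mul_sq_norm_add (V := ℂ) (b := (ε : ℂ))
      (by simpa using hε) Complex.I (s + (p.1 - p.2))
  rw [Complex.finrank_real_complex] at h
  have e1 : ((2 : ℕ) : ℂ) / 2 = 1 := by norm_num
  rw [e1, Complex.cpow_one, Complex.I_sq] at h
  unfold F3
  simp only
  have e2 : ∀ r : ℂ, (Real.exp (-ε * ‖r‖ ^ 2) : ℂ) *
      Complex.exp ((⟪r, s + (p.1 - p.2)⟫_ℝ : ℝ) * Complex.I) =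
      Complex.exp (-(ε : ℂ) * ‖r‖ ^ 2 + Complex.I * ⟪s + (p.1 - p.2), r⟫_ℝ) := by
    intro r
    rw [Complex.exp_add, real_inner_comm]
    congr 1
    · push_cast; rfl
    · rw [mul_comm]
  simp_rw [e2]
  rw [h]
  push_cast
  congr 2
  ring

lemma T_eq (ρ ε : ℝ) (hε : 0 < ε) (s : ℂ) :
    ∫ r : ℂ, ((Real.exp (-ε * ‖r‖ ^ 2) * ‖Gh ρ r‖ ^ 2 : ℝ) : ℂ) *
        Complex.exp ((⟪r, s⟫_ℝ : ℝ) * Complex.I) =
      ((∫ p : ℂ × ℂ, Real.pi / ε * Real.exp (-(‖s + (p.1 - p.2)‖ ^ 2 / (4 * ε)))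
        ∂((mB ρ).prod (mB ρ)) : ℝ) : ℂ) := by
  have h := integral_integral_swap (f := fun r p => F3 ε s (r, p)) (integrable_F3 ρ ε hε s)
  simp_rw [inner_F3, outer_F3 ε hε] at h
  rw [h, integral_complex_ofReal]

lemma integrable_T (ρ ε : ℝ) (hε : 0 < ε) (s : ℂ) :
    Integrable (fun r : ℂ => ((Real.exp (-ε * ‖r‖ ^ 2) * ‖Gh ρ r‖ ^ 2 : ℝ) : ℂ) *
        Complex.exp ((⟪r, s⟫_ℝ : ℝ) * Complex.I)) := by
  have h := (integrable_F3 ρ ε hε s).integral_prod_left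
  simp_rw [inner_F3] at h
  exact h

lemma integrable_W (ρ ε : ℝ) (hε : 0 < ε) :
    Integrable (fun r : ℂ => Real.exp (-ε * ‖r‖ ^ 2) * ‖Gh ρ r‖ ^ 2) := by
  have h := (integrable_T ρ ε hε 0).re
  refine h.congr (Filter.Eventually.of_forall fun r => ?_)
  simp only [inner_zero_right, Complex.ofReal_zero, zero_mul, Complex.exp_zero, mul_one,
    RCLike.re_to_complex, Complex.ofReal_re]

end Pool.Agent.H434
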