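import Mathlib
import Pool.Agent.H434.Gauss

set_option autoImplicit false

open MeasureTheory Metric
open scoped InnerProductSpace

namespace Pool.Agent.H434

lemma mB_real (ρ : ℝ) (hρ : 0 < ρ) : (mB ρ).real Set.univ = Real.pi * ρ ^ 2 := by
  unfold mB
  rw [measureReal_restrict_apply_univ, Measure.real, Complex.volume_closedBall, ENNReal.toReal_mul,
    ENNReal.toReal_pow, ENNReal.toReal_ofReal hρ.le]
  simp
  ring

lemma exp_bound (y : ℝ) (hy : 0 < y) : Real.exp (-y) ≤ 2 / y ^ 2 := by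
  rw [Real.exp_neg, inv_eq_one_div, div_le_div_iff₀ (Real.exp_pos _) (by positivity)]
  have := Real.quadratic_le_exp_of_nonneg hy.le
  nlinarith

lemma integrable_gauss (b : ℝ) (hb : 0 < b) :
    Integrable (fun v : ℂ => Real.exp (-b * ‖v‖ ^ 2)) := by
  have := GaussianFourier.integrable_cexp_neg_mul_sq_norm_add (V := ℂ) (b := (b : ℂ))
    (by simpa using hb) 0 0
  have h2 := this.norm
  refine h2.congr (Filter.Eventually.of_forall fun v => ?_)
  simp only [zero_mul, add_zero]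
  rw [Complex.norm_exp]
  congr 1
  norm_cast

/-- total mass of the regularised kernel -/
lemma T_zero (ρ ε : ℝ) (hρ : 0 < ρ) (hε : 0 < ε) :
    ∫ r : ℂ, Real.exp (-ε * ‖r‖ ^ 2) * ‖Gh ρ r‖ ^ 2 ≤ 4 * Real.pi ^ 2 * (Real.pi * ρ ^ 2) := by
  have hpi := Real.pi_pos
  have h := T_eq ρ ε hε 0
  simp only [inner_zero_right, Complex.ofReal_zero, zero_mul, Complex.exp_zero, mul_one,
    zero_add] at h
  rw [integral_complex_ofReal] at h
  have h1 := Complex.ofReal_injective h
  rw [h1]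
  have hcont : Continuous fun p : ℂ × ℂ =>
      Real.pi / ε * Real.exp (-(‖p.1 - p.2‖ ^ 2 / (4 * ε))) := by fun_prop
  have hint : Integrable (fun p : ℂ × ℂ =>
      Real.pi / ε * Real.exp (-(‖p.1 - p.2‖ ^ 2 / (4 * ε)))) ((mB ρ).prod (mB ρ)) := by
    refine Integrable.of_bound (C := Real.pi / ε) hcont.aestronglyMeasurable
      (Filter.Eventually.of_forall fun p => ?_)
    rw [Real.norm_of_nonneg (by positivity)]
    refine mul_le_of_le_one_right (by positivity) ?_
    rw [Real.exp_le_one_iff, neg_nonpos]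
    positivity
  rw [integral_prod _ hint]
  have hb : 0 < 1 / (4 * ε) := by positivity
  have hin : ∀ a : ℂ, ∫ b, Real.pi / ε * Real.exp (-(‖a - b‖ ^ 2 / (4 * ε))) ∂(mB ρ) ≤
      4 * Real.pi ^ 2 := by
    intro a
    rw [integral_const_mul]
    have e : ∀ b : ℂ, Real.exp (-(‖a - b‖ ^ 2 / (4 * ε))) =
        (fun v : ℂ => Real.exp (-(1 / (4 * ε)) * ‖v‖ ^ 2)) (a - b) := by
      intro b
      simp only
      congr 1
      ring
    simp_rw [e]
    have hI : Integrable (fun b : ℂ => (fun v : ℂ => Real.exp (-(1 / (4 * ε)) * ‖v‖ ^ 2))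
        (a - b)) := (integrable_gauss _ hb).comp_sub_left a
    have h2 : ∫ b, (fun v : ℂ => Real.exp (-(1 / (4 * ε)) * ‖v‖ ^ 2)) (a - b) ∂(mB ρ) ≤
        ∫ b : ℂ, (fun v : ℂ => Real.exp (-(1 / (4 * ε)) * ‖v‖ ^ 2)) (a - b) := by
      unfold mB
      exact setIntegral_le_integral hI (Filter.Eventually.of_forall fun b => (Real.exp_pos _).le)
    rw [integral_sub_left_eq_self (fun v : ℂ => Real.exp (-(1 / (4 * ε)) * ‖v‖ ^ 2)) volume a,
      GaussianFourier.integral_rexp_neg_mul_sq_norm hb, Complex.finrank_real_complex] at h2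
    have e1 : (((2 : ℕ) : ℝ) / 2) = 1 := by norm_num
    rw [e1, Real.rpow_one] at h2
    calc Real.pi / ε * _ ≤ Real.pi / ε * (Real.pi / (1 / (4 * ε))) :=
          mul_le_mul_of_nonneg_left h2 (by positivity)
      _ = 4 * Real.pi ^ 2 := by field_simp
  calc ∫ a, ∫ b, Real.pi / ε * Real.exp (-(‖a - b‖ ^ 2 / (4 * ε))) ∂(mB ρ) ∂(mB ρ)
      ≤ ∫ _a, 4 * Real.pi ^ 2 ∂(mB ρ) :=
        integral_mono hint.integral_prod_left (integrable_const _) hin
    _ = 4 * Real.pi ^ 2 * (Real.pi * ρ ^ 2) := by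
        rw [integral_const, mB_real ρ hρ, smul_eq_mul]
        ring

lemma T_far (ρ ε d : ℝ) (hρ : 0 < ρ) (hε : 0 < ε) (hd : 2 * ρ < d) (s : ℂ) (hs : d ≤ ‖s‖) :
    ‖∫ r : ℂ, ((Real.exp (-ε * ‖r‖ ^ 2) * ‖Gh ρ r‖ ^ 2 : ℝ) : ℂ) *
        Complex.exp ((⟪r, s⟫_ℝ : ℝ) * Complex.I)‖ ≤
      (32 * Real.pi / (d - 2 * ρ) ^ 4) * (Real.pi * ρ ^ 2) ^ 2 * ε := by
  have hpi := Real.pi_pos
  have hδ : 0 < d - 2 * ρ := by linarith
  rw [T_eq ρ ε hε s, Complex.norm_real]
  have hM : ((mB ρ).prod (mB ρ)).real Set.univ = (Real.pi * ρ ^ 2) ^ 2 := by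
    rw [Measure.real, ← Set.univ_prod_univ, Measure.prod_prod, ENNReal.toReal_mul]
    have := mB_real ρ hρ
    rw [Measure.real] at this
    rw [this]
    ring
  have hae : ∀ᵐ p ∂((mB ρ).prod (mB ρ)), ‖Real.pi / ε *
      Real.exp (-(‖s + (p.1 - p.2)‖ ^ 2 / (4 * ε)))‖ ≤ 32 * Real.pi / (d - 2 * ρ) ^ 4 * ε := by
    have e : (mB ρ).prod (mB ρ) = ((volume : Measure ℂ).prod volume).restrict
        (closedBall (0 : ℂ) ρ ×ˢ closedBall (0 : ℂ) ρ) := by
      unfold mB
      rw [Measure.prod_restrict]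
    rw [e]
    filter_upwards [ae_restrict_mem
      (measurableSet_closedBall.prod measurableSet_closedBall)] with p hp
    have hp1 : ‖p.1‖ ≤ ρ := by simpa using hp.1
    have hp2 : ‖p.2‖ ≤ ρ := by simpa using hp.2
    have hn : d - 2 * ρ ≤ ‖s + (p.1 - p.2)‖ := by
      have h1 : ‖s‖ ≤ ‖s + (p.1 - p.2)‖ + ‖p.1 - p.2‖ := by
        calc ‖s‖ = ‖(s + (p.1 - p.2)) - (p.1 - p.2)‖ := by congr 1; ring
          _ ≤ _ := norm_sub_le _ _
      have h2 : ‖p.1 - p.2‖ ≤ ‖p.1‖ + ‖p.2‖ := norm_sub_le _ _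
      linarith
    have hy : (d - 2 * ρ) ^ 2 / (4 * ε) ≤ ‖s + (p.1 - p.2)‖ ^ 2 / (4 * ε) := by
      gcongr
    rw [Real.norm_of_nonneg (by positivity)]
    calc Real.pi / ε * Real.exp (-(‖s + (p.1 - p.2)‖ ^ 2 / (4 * ε)))
        ≤ Real.pi / ε * Real.exp (-((d - 2 * ρ) ^ 2 / (4 * ε))) := by gcongr
      _ ≤ Real.pi / ε * (2 / ((d - 2 * ρ) ^ 2 / (4 * ε)) ^ 2) := by
          refine mul_le_mul_of_nonneg_left (exp_bound _ (by positivity)) (by positivity)
      _ = 32 * Real.pi / (d - 2 * ρ) ^ 4 * ε := by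
          field_simp
          ring
  have h := norm_integral_le_of_norm_le_const hae
  rw [hM] at h
  calc _ ≤ _ := h
    _ = _ := by ring

lemma half_aux (x D : ℝ) (hD : D ≠ 0) : x / (2 * D) * D = x / 2 := by
  field_simp

/-- the lower envelope of the angle bound -/
noncomputable def env (r : ℂ) : ℝ :=
  -1 + (closedBall (0 : ℂ) Real.pi).indicator (fun r : ℂ => 1 + Real.cos ‖r‖) r

theorem gauss_main {κ : Type*} [Fintype κ] (ρ d : ℝ) (hρ : 0 < ρ) (hd : 2 * ρ < d) (c s : κ → ℂ)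
    (hs : ∀ k, c k ≠ 0 → d ≤ ‖s k‖)
    (hm : ∀ r : ℂ, env r ≤ (∑ k, c k * Complex.exp ((⟪r, s k⟫_ℝ : ℝ) * Complex.I)).re) :
    ∫ r in closedBall (0 : ℂ) Real.pi, ‖Gh ρ r‖ ^ 2 * (1 + Real.cos ‖r‖) ≤
      4 * Real.pi ^ 2 * (Real.pi * ρ ^ 2) := by
  have hpi := Real.pi_pos
  set J := ∫ r in closedBall (0 : ℂ) Real.pi, ‖Gh ρ r‖ ^ 2 * (1 + Real.cos ‖r‖) with hJ
  set A := 4 * Real.pi ^ 2 * (Real.pi * ρ ^ 2) with hA
  set C := (∑ k, ‖c k‖) * ((32 * Real.pi / (d - 2 * ρ) ^ 4) * (Real.pi * ρ ^ 2) ^ 2) with hC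
  have hcos : ∀ r : ℂ, 0 ≤ 1 + Real.cos ‖r‖ := fun r => by linarith [Real.neg_one_le_cos ‖r‖]
  have hJ0 : 0 ≤ J := setIntegral_nonneg measurableSet_closedBall fun r _ =>
    mul_nonneg (sq_nonneg _) (hcos r)
  have hC0 : 0 ≤ C := by positivity
  have key : ∀ ε : ℝ, 0 < ε → J ≤ A + ε * (C + Real.pi ^ 2 * J) := by
    intro ε hε
    set W : ℂ → ℝ := fun r => Real.exp (-ε * ‖r‖ ^ 2) * ‖Gh ρ r‖ ^ 2 with hW
    have hWi : Integrable W := integrable_W ρ ε hε
    have hW0 : ∀ r, 0 ≤ W r := fun r => by positivity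
    -- the complex identity
    have hTi : ∀ k, Integrable (fun r : ℂ => c k * ((W r : ℂ) *
        Complex.exp ((⟪r, s k⟫_ℝ : ℝ) * Complex.I))) :=
      fun k => (integrable_T ρ ε hε (s k)).const_mul _
    have hPi : Integrable (fun r : ℂ => ∑ k, c k * ((W r : ℂ) *
        Complex.exp ((⟪r, s k⟫_ℝ : ℝ) * Complex.I))) := integrable_finsetSum _ fun k _ => hTi k
    have hPe : ∀ r : ℂ, (∑ k, c k * ((W r : ℂ) *
        Complex.exp ((⟪r, s k⟫_ℝ : ℝ) * Complex.I))).re =
        W r * (∑ k, c k * Complex.exp ((⟪r, s k⟫_ℝ : ℝ) * Complex.I)).re := by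
      intro r
      rw [← Complex.re_ofReal_mul, Finset.mul_sum]
      congr 1
      exact Finset.sum_congr rfl fun k _ => by ring
    have h1 : ∫ r : ℂ, W r * (∑ k, c k * Complex.exp ((⟪r, s k⟫_ℝ : ℝ) * Complex.I)).re ≤
        C * ε := by
      simp_rw [← hPe]
      have h2 := integral_re hPi
      simp only [RCLike.re_to_complex] at h2
      rw [h2, integral_finsetSum _ fun k _ => hTi k]
      refine (Complex.re_le_norm _).trans ?_
      refine (norm_sum_le _ _).trans ?_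
      rw [hC, Finset.sum_mul, Finset.sum_mul]
      refine Finset.sum_le_sum fun k _ => ?_
      rw [integral_const_mul, norm_mul]
      by_cases hk : c k = 0
      · rw [hk]; simp
      · have := T_far ρ ε d hρ hε hd (s k) (hs k hk)
        calc _ ≤ ‖c k‖ * ((32 * Real.pi / (d - 2 * ρ) ^ 4) * (Real.pi * ρ ^ 2) ^ 2 * ε) :=
              mul_le_mul_of_nonneg_left this (norm_nonneg _)
          _ = _ := by ring
    -- the lower bound
    have hind : Integrable (fun r : ℂ => W r *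
        (closedBall (0 : ℂ) Real.pi).indicator (fun r : ℂ => 1 + Real.cos ‖r‖) r) := by
      refine (hWi.mul_const 2).mono' (hWi.1.mul ?_) (Filter.Eventually.of_forall fun r => ?_)
      · refine (Measurable.indicator ?_ measurableSet_closedBall).aestronglyMeasurable
        fun_prop
      · rw [norm_mul, Real.norm_of_nonneg (hW0 r)]
        refine mul_le_mul_of_nonneg_left ?_ (hW0 r)
        by_cases hr : r ∈ closedBall (0 : ℂ) Real.pi
        · rw [Set.indicator_of_mem hr, Real.norm_of_nonneg (hcos r)]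
          linarith [Real.cos_le_one ‖r‖]
        · rw [Set.indicator_of_notMem hr, norm_zero]
          norm_num
    have hPre : Integrable (fun r : ℂ => W r *
        (∑ k, c k * Complex.exp ((⟪r, s k⟫_ℝ : ℝ) * Complex.I)).re) := by
      have := hPi.re
      refine this.congr (Filter.Eventually.of_forall fun r => ?_)
      simp only [RCLike.re_to_complex]
      exact hPe r
    have h3 : ∫ r : ℂ, W r * env r ≤
        ∫ r : ℂ, W r * (∑ k, c k * Complex.exp ((⟪r, s k⟫_ℝ : ℝ) * Complex.I)).re := by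
      refine integral_mono ?_ hPre fun r => mul_le_mul_of_nonneg_left (hm r) (hW0 r)
      unfold env
      refine (hWi.neg.add hind).congr (Filter.Eventually.of_forall fun r => ?_)
      simp only [Pi.add_apply, Pi.neg_apply]
      ring
    have h4 : ∫ r : ℂ, W r * env r = -(∫ r, W r) + ∫ r : ℂ, W r *
        (closedBall (0 : ℂ) Real.pi).indicator (fun r : ℂ => 1 + Real.cos ‖r‖) r := by
      have e1 := integral_add hWi.neg hind
      simp only [Pi.neg_apply] at e1
      rw [integral_neg] at e1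
      rw [← e1]
      congr 1
      funext r
      unfold env
      ring
    have h5 : Real.exp (-(ε * Real.pi ^ 2)) * J ≤ ∫ r : ℂ, W r *
        (closedBall (0 : ℂ) Real.pi).indicator (fun r : ℂ => 1 + Real.cos ‖r‖) r := by
      have e : ∀ r, W r * (closedBall (0 : ℂ) Real.pi).indicator
          (fun r : ℂ => 1 + Real.cos ‖r‖) r = (closedBall (0 : ℂ) Real.pi).indicator
          (fun r : ℂ => W r * (1 + Real.cos ‖r‖)) r := by
        intro r
        by_cases hr : r ∈ closedBall (0 : ℂ) Real.pi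
        · rw [Set.indicator_of_mem hr, Set.indicator_of_mem hr]
        · rw [Set.indicator_of_notMem hr, Set.indicator_of_notMem hr, mul_zero]
      simp_rw [e] at hind ⊢
      rw [integral_indicator measurableSet_closedBall, hJ, ← integral_const_mul]
      refine integral_mono_of_nonneg (Filter.Eventually.of_forall fun r =>
        mul_nonneg (Real.exp_pos _).le (mul_nonneg (sq_nonneg _) (hcos r)))
        ((integrable_indicator_iff measurableSet_closedBall).1 hind) ?_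
      filter_upwards [ae_restrict_mem measurableSet_closedBall] with r hr
      have hr' : ‖r‖ ≤ Real.pi := by simpa using hr
      have h6 : Real.exp (-(ε * Real.pi ^ 2)) ≤ Real.exp (-ε * ‖r‖ ^ 2) := by
        rw [Real.exp_le_exp]
        nlinarith [mul_le_mul_of_nonneg_left (pow_le_pow_left₀ (norm_nonneg r) hr' 2) hε.le]
      calc Real.exp (-(ε * Real.pi ^ 2)) * (‖Gh ρ r‖ ^ 2 * (1 + Real.cos ‖r‖))
          ≤ Real.exp (-ε * ‖r‖ ^ 2) * (‖Gh ρ r‖ ^ 2 * (1 + Real.cos ‖r‖)) :=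
            mul_le_mul_of_nonneg_right h6 (mul_nonneg (sq_nonneg _) (hcos r))
        _ = W r * (1 + Real.cos ‖r‖) := by rw [hW]; ring
    have h7 : ∫ r, W r ≤ A := T_zero ρ ε hρ hε
    have h8 : 1 - ε * Real.pi ^ 2 ≤ Real.exp (-(ε * Real.pi ^ 2)) := by
      have := Real.add_one_le_exp (-(ε * Real.pi ^ 2))
      linarith
    have h9 := mul_le_mul_of_nonneg_right h8 hJ0
    nlinarith
  -- let `ε` tend to zero
  by_contra hcon
  push Not at hcon
  have hD : 0 < C + Real.pi ^ 2 * J := by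
    have : 0 < J := lt_of_le_of_lt (by positivity) hcon
    positivity
  have h1 := key ((J - A) / (2 * (C + Real.pi ^ 2 * J))) (by
    have : 0 < J - A := by linarith
    positivity)
  have h2 : (J - A) / (2 * (C + Real.pi ^ 2 * J)) * (C + Real.pi ^ 2 * J) = (J - A) / 2 :=
    half_aux _ _ hD.ne'
  rw [h2] at h1
  linarith

end Pool.Agent.H434
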