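import Mathlib

set_option autoImplicit false

open Finset

namespace Pool.Agent.H434

/-- partial sums of the cosine series -/
noncomputable def Cn (n : ℕ) (x : ℝ) : ℝ :=
  ∑ j ∈ range n, ((-1) ^ j / ((2 * j).factorial : ℝ)) * x ^ (2 * j)

/-- partial sums of the sine series -/
noncomputable def Sn (n : ℕ) (x : ℝ) : ℝ :=
  ∑ j ∈ range n, ((-1) ^ j / ((2 * j + 1).factorial : ℝ)) * x ^ (2 * j + 1)

lemma hasDerivAt_Sn (n : ℕ) (x : ℝ) : HasDerivAt (Sn n) (Cn n x) x := by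
  unfold Sn Cn
  refine HasDerivAt.fun_sum fun j _ => ?_
  refine ((hasDerivAt_pow (2 * j + 1) x).const_mul _).congr_deriv ?_
  rw [Nat.factorial_succ]
  have : ((2 * j).factorial : ℝ) ≠ 0 := by positivity
  push_cast
  field_simp

lemma hasDerivAt_Cn (n : ℕ) (x : ℝ) : HasDerivAt (Cn (n + 1)) (-(Sn n x)) x := by
  have e : Cn (n + 1) = fun x => 1 + ∑ j ∈ range n,
      ((-1) ^ (j + 1) / ((2 * (j + 1)).factorial : ℝ)) * x ^ (2 * (j + 1)) := by
    funext y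
    unfold Cn
    rw [Finset.sum_range_succ']
    simp
    ring
  rw [e]
  unfold Sn
  rw [← Finset.sum_neg_distrib]
  refine HasDerivAt.const_add _ ?_
  refine HasDerivAt.fun_sum fun j _ => ?_
  refine ((hasDerivAt_pow (2 * (j + 1)) x).const_mul _).congr_deriv ?_
  have e2 : 2 * (j + 1) = (2 * j + 1) + 1 := by ring
  rw [e2, Nat.factorial_succ]
  have : ((2 * j + 1).factorial : ℝ) ≠ 0 := by positivity
  push_cast
  field_simp
  try ring

lemma nonneg_of_deriv (f f' : ℝ → ℝ) (h0 : f 0 = 0) (hf : ∀ x, HasDerivAt f (f' x) x)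
    (hf' : ∀ x, 0 ≤ x → 0 ≤ f' x) (x : ℝ) (hx : 0 ≤ x) : 0 ≤ f x := by
  have hmono : MonotoneOn f (Set.Ici 0) := by
    refine monotoneOn_of_deriv_nonneg (convex_Ici 0)
      (fun y _ => (hf y).continuousAt.continuousWithinAt)
      (fun y _ => (hf y).differentiableAt.differentiableWithinAt) ?_
    intro y hy
    rw [(hf y).deriv]
    rw [interior_Ici] at hy
    exact hf' y (le_of_lt hy)
  rw [← h0]
  exact hmono (Set.mem_Ici.2 le_rfl) (Set.mem_Ici.2 hx) hx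

lemma Cn_zero (n : ℕ) : Cn (n + 1) 0 = 1 := by
  unfold Cn
  rw [Finset.sum_range_succ']
  simp

lemma Sn_zero (n : ℕ) : Sn n 0 = 0 := by
  unfold Sn
  simp

lemma taylor (n : ℕ) : (∀ x : ℝ, 0 ≤ x → 0 ≤ (-1) ^ (n + 1) * (Real.cos x - Cn (n + 1) x)) ∧
    (∀ x : ℝ, 0 ≤ x → 0 ≤ (-1) ^ (n + 1) * (Real.sin x - Sn (n + 1) x)) := by
  induction n with
  | zero =>
    constructor
    · intro x _
      simp [Cn, Real.cos_le_one]
    · intro x hx
      simp [Sn, Real.sin_le hx]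
  | succ n ih =>
    have h1 : ∀ x : ℝ, 0 ≤ x → 0 ≤ (-1) ^ (n + 1 + 1) * (Real.cos x - Cn (n + 1 + 1) x) := by
      refine nonneg_of_deriv _ (fun x => (-1) ^ (n + 1 + 1) * (-Real.sin x - -(Sn (n + 1) x))) ?_
        (fun x => ?_) (fun x hx => ?_)
      · rw [Cn_zero, Real.cos_zero]; ring
      · exact ((Real.hasDerivAt_cos x).sub (hasDerivAt_Cn (n + 1) x)).const_mul _
      · have := ih.2 x hx
        rw [pow_succ]
        linarith
    refine ⟨h1, ?_⟩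
    refine nonneg_of_deriv _ (fun x => (-1) ^ (n + 1 + 1) * (Real.cos x - Cn (n + 1 + 1) x)) ?_
      (fun x => ?_) (fun x hx => h1 x hx)
    · rw [Sn_zero, Real.sin_zero]; ring
    · exact ((Real.hasDerivAt_sin x).sub (hasDerivAt_Sn (n + 1 + 1) x)).const_mul _

lemma cos_ge_six (x : ℝ) : 1 - x ^ 2 / 2 + x ^ 4 / 24 - x ^ 6 / 720 ≤ Real.cos x := by
  have h := (taylor 3).1 |x| (abs_nonneg x)
  rw [Real.cos_abs] at h
  simp only [Cn, Finset.sum_range_succ, Finset.sum_range_zero] at h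
  norm_num [Nat.factorial] at h
  have e4 : |x| ^ 4 = x ^ 4 := by rw [show (4 : ℕ) = 2 * 2 by norm_num, pow_mul, sq_abs, ← pow_mul]
  have e6 : |x| ^ 6 = x ^ 6 := by rw [show (6 : ℕ) = 2 * 3 by norm_num, pow_mul, sq_abs, ← pow_mul]
  rw [e4, e6] at h
  linarith

lemma cos_ge_ten (x : ℝ) : 1 - x ^ 2 / 2 + x ^ 4 / 24 - x ^ 6 / 720 + x ^ 8 / 40320
    - x ^ 10 / 3628800 ≤ Real.cos x := by
  have h := (taylor 5).1 |x| (abs_nonneg x)
  rw [Real.cos_abs] at h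
  simp only [Cn, Finset.sum_range_succ, Finset.sum_range_zero] at h
  norm_num [Nat.factorial] at h
  have e4 : |x| ^ 4 = x ^ 4 := by rw [show (4 : ℕ) = 2 * 2 by norm_num, pow_mul, sq_abs, ← pow_mul]
  have e6 : |x| ^ 6 = x ^ 6 := by rw [show (6 : ℕ) = 2 * 3 by norm_num, pow_mul, sq_abs, ← pow_mul]
  have e8 : |x| ^ 8 = x ^ 8 := by rw [show (8 : ℕ) = 2 * 4 by norm_num, pow_mul, sq_abs, ← pow_mul]
  have e10 : |x| ^ 10 = x ^ 10 := by
    rw [show (10 : ℕ) = 2 * 5 by norm_num, pow_mul, sq_abs, ← pow_mul]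
  rw [e4, e6, e8, e10] at h
  linarith

end Pool.Agent.H434
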