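import Mathlib
import Pool.Agent.H434.Gauss2
import Pool.Agent.H434.Taylor

set_option autoImplicit false

open MeasureTheory Metric
open scoped InnerProductSpace

namespace Pool.Agent.H434

/-- radial integrals over discs -/
lemma radial (f : ℝ → ℝ) (ρ : ℝ) (hρ : 0 ≤ ρ) :
    ∫ s in closedBall (0 : ℂ) ρ, f ‖s‖ = 2 * Real.pi * ∫ y in (0 : ℝ)..ρ, y * f y := by
  rw [← integral_indicator measurableSet_closedBall]
  have e : (closedBall (0 : ℂ) ρ).indicator (fun s => f ‖s‖) =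
      fun s : ℂ => ((Set.Iic ρ).indicator f) ‖s‖ := by
    funext s
    by_cases hs : ‖s‖ ≤ ρ
    · rw [Set.indicator_of_mem (by simpa using hs), Set.indicator_of_mem (by simpa using hs)]
    · rw [Set.indicator_of_notMem (by simpa using hs), Set.indicator_of_notMem (by simpa using hs)]
  rw [e, integral_fun_norm_addHaar, Complex.finrank_real_complex]
  have hv : (volume : Measure ℂ).real (ball (0 : ℂ) 1) = Real.pi := by
    rw [Measure.real, Complex.volume_ball]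
    simp
  rw [hv]
  have e2 : ∀ y : ℝ, y ^ (2 - 1) • (Set.Iic ρ).indicator f y =
      (Set.Iic ρ).indicator (fun y => y * f y) y := by
    intro y
    by_cases hy : y ∈ Set.Iic ρ
    · rw [Set.indicator_of_mem hy, Set.indicator_of_mem hy]
      simp
    · rw [Set.indicator_of_notMem hy, Set.indicator_of_notMem hy, smul_zero]
  simp_rw [e2]
  rw [setIntegral_indicator measurableSet_Iic, Set.Ioi_inter_Iic,
    intervalIntegral.integral_of_le hρ]
  simp only [nsmul_eq_mul, smul_eq_mul]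
  push_cast
  ring

lemma rot (ω : ℂ) (hω : ‖ω‖ = 1) (f : ℂ → ℝ) (ρ : ℝ) :
    ∫ s in closedBall (0 : ℂ) ρ, f (ω * s) = ∫ s in closedBall (0 : ℂ) ρ, f s := by
  set e : ℂ ≃ₗᵢ[ℝ] ℂ := rotation ⟨ω, mem_sphere_zero_iff_norm.2 hω⟩ with he
  have hea : ∀ s, e s = ω * s := fun s => rotation_apply _ _
  have hpre : e ⁻¹' (closedBall (0 : ℂ) ρ) = closedBall (0 : ℂ) ρ := by
    ext s
    simp [hea, hω]
  have h := e.measurePreserving.setIntegral_preimage_emb
    e.toHomeomorph.measurableEmbedding f (closedBall (0 : ℂ) ρ)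
  rw [hpre] at h
  simp_rw [hea] at h
  exact h

lemma continuous_Gh (ρ : ℝ) : Continuous (Gh ρ) := by
  unfold Gh
  refine continuous_of_dominated (bound := fun _ => (1 : ℝ)) ?_ ?_ (integrable_const _) ?_
  · intro r
    exact (Continuous.aestronglyMeasurable (by fun_prop))
  · intro r
    exact Filter.Eventually.of_forall fun s => by rw [Complex.norm_exp_ofReal_mul_I]
  · exact Filter.Eventually.of_forall fun s => by fun_prop

/-- the lower Taylor polynomial of the cosine -/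
noncomputable def Q6 (x : ℝ) : ℝ := 1 - x ^ 2 / 2 + x ^ 4 / 24 - x ^ 6 / 720

lemma Gh_re (ρ : ℝ) (r : ℂ) :
    (Gh ρ r).re = ∫ s in closedBall (0 : ℂ) ρ, Real.cos ⟪r, s⟫_ℝ := by
  unfold Gh mB
  have hi : Integrable (fun s : ℂ => Complex.exp ((⟪r, s⟫_ℝ : ℝ) * Complex.I))
      (volume.restrict (closedBall (0 : ℂ) ρ)) := by
    have : IsFiniteMeasure (volume.restrict (closedBall (0 : ℂ) ρ)) :=
      inferInstanceAs (IsFiniteMeasure (mB ρ))
    refine Integrable.of_bound (C := 1) (Continuous.aestronglyMeasurable (by fun_prop)) ?_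
    exact Filter.Eventually.of_forall fun k => by rw [Complex.norm_exp_ofReal_mul_I]
  have h := integral_re hi
  simp only [RCLike.re_to_complex, Complex.exp_ofReal_mul_I_re] at h
  exact h.symm

lemma Q6_sum (r s : ℂ) (c : ℝ) (hc : c ^ 2 = 1 / 2) :
    (Q6 ⟪r, s⟫_ℝ + Q6 ⟪r, Complex.I * s⟫_ℝ) + (Q6 ⟪r, ((c : ℂ) + c * Complex.I) * s⟫_ℝ +
      Q6 ⟪r, (-(c : ℂ) + c * Complex.I) * s⟫_ℝ) =
    4 * (1 - (‖r‖ * ‖s‖) ^ 2 / 4 + (‖r‖ * ‖s‖) ^ 4 / 64 - (‖r‖ * ‖s‖) ^ 6 / 2304) := by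
  set X : ℝ := r.re * s.re + r.im * s.im with hX
  set Y : ℝ := r.re * s.im - r.im * s.re with hY
  have h1 : ⟪r, s⟫_ℝ = X := by rw [Complex.inner, hX]; simp; ring
  have h2 : ⟪r, Complex.I * s⟫_ℝ = -Y := by rw [Complex.inner, hY]; simp; ring
  have h3 : ⟪r, ((c : ℂ) + c * Complex.I) * s⟫_ℝ = c * (X - Y) := by
    rw [Complex.inner, hX, hY]; simp; ring
  have h4 : ⟪r, (-(c : ℂ) + c * Complex.I) * s⟫_ℝ = -(c * (X + Y)) := by
    rw [Complex.inner, hX, hY]; simp; ring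
  have hn : (‖r‖ * ‖s‖) ^ 2 = X ^ 2 + Y ^ 2 := by
    rw [mul_pow, ← Complex.normSq_eq_norm_sq, ← Complex.normSq_eq_norm_sq, Complex.normSq_apply,
      Complex.normSq_apply, hX, hY]
    ring
  have hn4 : (‖r‖ * ‖s‖) ^ 4 = (X ^ 2 + Y ^ 2) ^ 2 := by rw [← hn]; ring
  have hn6 : (‖r‖ * ‖s‖) ^ 6 = (X ^ 2 + Y ^ 2) ^ 3 := by rw [← hn]; ring
  have hc4 : c ^ 4 = 1 / 4 := by
    calc c ^ 4 = (c ^ 2) ^ 2 := by ring
      _ = 1 / 4 := by rw [hc]; norm_num
  have hc6 : c ^ 6 = 1 / 8 := by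
    calc c ^ 6 = (c ^ 2) ^ 3 := by ring
      _ = 1 / 8 := by rw [hc]; norm_num
  have q : ∀ Z : ℝ, Q6 (c * Z) = 1 - Z ^ 2 / 4 + Z ^ 4 / 96 - Z ^ 6 / 5760 := by
    intro Z
    unfold Q6
    rw [mul_pow, mul_pow, mul_pow, hc, hc4, hc6]
    ring
  have qn : ∀ Z : ℝ, Q6 (-Z) = Q6 Z := by
    intro Z
    unfold Q6
    ring
  rw [h1, h2, h3, h4, hn, hn4, hn6, qn, qn, q, q]
  unfold Q6
  ring

lemma poly_int (a ρ : ℝ) : ∫ y in (0 : ℝ)..ρ,
    y * (1 - (a * y) ^ 2 / 4 + (a * y) ^ 4 / 64 - (a * y) ^ 6 / 2304) =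
    ρ ^ 2 / 2 - a ^ 2 * ρ ^ 4 / 16 + a ^ 4 * ρ ^ 6 / 384 - a ^ 6 * ρ ^ 8 / 18432 := by
  have hF : ∀ y : ℝ, HasDerivAt (fun y : ℝ => (1 / 2) * y ^ 2 + (-(a ^ 2 / 16)) * y ^ 4 +
      (a ^ 4 / 384) * y ^ 6 + (-(a ^ 6 / 18432)) * y ^ 8)
      (y * (1 - (a * y) ^ 2 / 4 + (a * y) ^ 4 / 64 - (a * y) ^ 6 / 2304)) y := by
    intro y
    refine HasDerivAt.congr_deriv (((((hasDerivAt_pow 2 y).const_mul (1 / 2 : ℝ)).add
      ((hasDerivAt_pow 4 y).const_mul (-(a ^ 2 / 16)))).add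
      ((hasDerivAt_pow 6 y).const_mul (a ^ 4 / 384))).add
      ((hasDerivAt_pow 8 y).const_mul (-(a ^ 6 / 18432)))) ?_
    norm_num
    ring
  rw [intervalIntegral.integral_eq_sub_of_hasDerivAt (fun y _ => hF y)
    (Continuous.intervalIntegrable (by fun_prop) _ _)]
  ring

/-- lower bound for the characteristic function of the disc -/
lemma Gh_ge (ρ : ℝ) (hρ : 0 ≤ ρ) (r : ℂ) :
    Real.pi * ρ ^ 2 * (1 - (ρ * ‖r‖) ^ 2 / 8 + (ρ * ‖r‖) ^ 4 / 192 - (ρ * ‖r‖) ^ 6 / 9216) ≤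
      (Gh ρ r).re := by
  set c : ℝ := √(1 / 2) with hcdef
  have hc : c ^ 2 = 1 / 2 := Real.sq_sqrt (by norm_num)
  have hcont : ∀ ω : ℂ, Continuous fun s : ℂ => Q6 ⟪r, ω * s⟫_ℝ := by
    intro ω
    unfold Q6
    fun_prop
  have hint : ∀ ω : ℂ, IntegrableOn (fun s : ℂ => Q6 ⟪r, ω * s⟫_ℝ) (closedBall (0 : ℂ) ρ) :=
    fun ω => (hcont ω).continuousOn.integrableOn_compact (isCompact_closedBall _ _)
  have hint1 : IntegrableOn (fun s : ℂ => Q6 ⟪r, s⟫_ℝ) (closedBall (0 : ℂ) ρ) := by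
    have := hint 1
    simpa only [one_mul] using this
  have h1 : ∫ s in closedBall (0 : ℂ) ρ, Q6 ⟪r, s⟫_ℝ ≤ (Gh ρ r).re := by
    rw [Gh_re]
    refine setIntegral_mono hint1 ?_ fun s => cos_ge_six _
    exact Continuous.continuousOn (by fun_prop) |>.integrableOn_compact (isCompact_closedBall _ _)
  have hn3 : ‖((c : ℂ) + c * Complex.I)‖ = 1 := by
    have : ‖((c : ℂ) + c * Complex.I)‖ ^ 2 = 1 := by
      rw [← Complex.normSq_eq_norm_sq, Complex.normSq_apply]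
      simp
      nlinarith
    nlinarith [norm_nonneg ((c : ℂ) + c * Complex.I)]
  have hn4 : ‖(-(c : ℂ) + c * Complex.I)‖ = 1 := by
    have : ‖(-(c : ℂ) + c * Complex.I)‖ ^ 2 = 1 := by
      rw [← Complex.normSq_eq_norm_sq, Complex.normSq_apply]
      simp
      nlinarith
    nlinarith [norm_nonneg (-(c : ℂ) + c * Complex.I)]
  have r2 := rot Complex.I Complex.norm_I (fun s => Q6 ⟪r, s⟫_ℝ) ρ
  have r3 := rot _ hn3 (fun s => Q6 ⟪r, s⟫_ℝ) ρ
  have r4 := rot _ hn4 (fun s => Q6 ⟪r, s⟫_ℝ) ρ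
  have h2 : 4 * ∫ s in closedBall (0 : ℂ) ρ, Q6 ⟪r, s⟫_ℝ = ∫ s in closedBall (0 : ℂ) ρ,
      4 * (1 - (‖r‖ * ‖s‖) ^ 2 / 4 + (‖r‖ * ‖s‖) ^ 4 / 64 - (‖r‖ * ‖s‖) ^ 6 / 2304) := by
    simp_rw [← Q6_sum r _ c hc]
    have a1 := integral_add hint1 (hint Complex.I)
    have a2 := integral_add (hint ((c : ℂ) + c * Complex.I)) (hint (-(c : ℂ) + c * Complex.I))
    have a3 := integral_add (hint1.add (hint Complex.I))
      ((hint ((c : ℂ) + c * Complex.I)).add (hint (-(c : ℂ) + c * Complex.I)))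
    simp only [Pi.add_apply] at a1 a2 a3
    rw [a3, a1, a2, r2, r3, r4]
    ring
  rw [integral_const_mul] at h2
  have h3 := radial (fun y => 1 - (‖r‖ * y) ^ 2 / 4 + (‖r‖ * y) ^ 4 / 64
    - (‖r‖ * y) ^ 6 / 2304) ρ hρ
  rw [poly_int] at h3
  have h4 : ∫ s in closedBall (0 : ℂ) ρ, Q6 ⟪r, s⟫_ℝ = Real.pi * ρ ^ 2 *
      (1 - (ρ * ‖r‖) ^ 2 / 8 + (ρ * ‖r‖) ^ 4 / 192 - (ρ * ‖r‖) ^ 6 / 9216) := by
    have h5 := mul_left_cancel₀ (by norm_num : (4 : ℝ) ≠ 0) h2
    rw [h5, h3]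
    ring
  rw [← h4]
  exact h1

/-- the profile polynomial -/
noncomputable def PP (y : ℝ) : ℝ :=
  1 - (91 / 80 * y) ^ 2 / 8 + (91 / 80 * y) ^ 4 / 192 - (91 / 80 * y) ^ 6 / 9216

/-- lower Taylor polynomial of `1 + cos` -/
noncomputable def QQ (y : ℝ) : ℝ :=
  2 - y ^ 2 / 2 + y ^ 4 / 24 - y ^ 6 / 720 + y ^ 8 / 40320 - y ^ 10 / 3628800

/-- the radial minorant -/
noncomputable def G3 (y : ℝ) : ℝ := (Real.pi * (91 / 80) ^ 2) ^ 2 * (PP y ^ 2 * QQ y)

lemma PP_nonneg (y : ℝ) (h0 : 0 ≤ y) (h3 : y ≤ 3) : 0 ≤ PP y := by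
  unfold PP
  have ht : (91 / 80 * y) ^ 2 ≤ 12 := by nlinarith
  set t := (91 / 80 * y) ^ 2 with htdef
  have h4 : (91 / 80 * y) ^ 4 = t ^ 2 := by rw [htdef]; ring
  have h6 : (91 / 80 * y) ^ 6 = t ^ 3 := by rw [htdef]; ring
  rw [h4, h6]
  have hv : 4 ≤ 16 - t := by linarith
  nlinarith [pow_le_pow_left₀ (by norm_num : (0 : ℝ) ≤ 4) hv 3]

lemma int_num : (2 : ℝ) / (91 / 80) ^ 2 < ∫ y in (0 : ℝ)..3, y * (PP y ^ 2 * QQ y) := by
  have hF : ∀ y : ℝ, HasDerivAt (fun y : ℝ =>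
        (1/1) * y ^ 2 + (-14681/51200) * y ^ 4 + (76179707/1572864000) * y ^ 6 +
        (-8706964105429/1610612736000000) * y ^ 8 + (152976733701972749/360777252864000000000)
        * y ^ 10 + (-28946687989190006402221/1196972338462064640000000000) * y ^ 12 +
        (5935564739238654898574183/5836665117072162816000000000000) * y ^ 14 +
        (-17624223446886642204534643/560319851238927630336000000000000) * y ^ 16 +
        (5326039563711789729562483/7564317991725523009536000000000000) * y ^ 18 +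
        (-925826140719109006640081/84047977685839144550400000000000000) * y ^ 20 +
        (252135810306671201972789/2218866610906153416130560000000000000) * y ^ 22 +
        (-46067926773372111809383/72617452720565020891545600000000000000) * y ^ 24)
      (y * (PP y ^ 2 * QQ y)) y := by
    intro y
    refine HasDerivAt.congr_deriv
      (((((((((((((hasDerivAt_pow 2 y).const_mul (1/1)).add ((hasDerivAt_pow 4 y).const_mul
      (-14681/51200))).add ((hasDerivAt_pow 6 y).const_mul (76179707/1572864000))).add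
      ((hasDerivAt_pow 8 y).const_mul (-8706964105429/1610612736000000))).add ((hasDerivAt_pow
      10 y).const_mul (152976733701972749/360777252864000000000))).add ((hasDerivAt_pow 12
      y).const_mul (-28946687989190006402221/1196972338462064640000000000))).add
      ((hasDerivAt_pow 14 y).const_mul
      (5935564739238654898574183/5836665117072162816000000000000))).add ((hasDerivAt_pow 16
      y).const_mul (-17624223446886642204534643/560319851238927630336000000000000))).add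
      ((hasDerivAt_pow 18 y).const_mul
      (5326039563711789729562483/7564317991725523009536000000000000))).add ((hasDerivAt_pow 20
      y).const_mul (-925826140719109006640081/84047977685839144550400000000000000))).add
      ((hasDerivAt_pow 22 y).const_mul
      (252135810306671201972789/2218866610906153416130560000000000000))).add ((hasDerivAt_pow
      24 y).const_mul (-46067926773372111809383/72617452720565020891545600000000000000))) ?_
    unfold PP QQ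
    norm_num
    ring
  rw [intervalIntegral.integral_eq_sub_of_hasDerivAt (fun y _ => hF y)
    (Continuous.intervalIntegrable (by unfold PP QQ; fun_prop) _ _)]
  norm_num

theorem J_gt : 4 * Real.pi ^ 2 * (Real.pi * (91 / 80 : ℝ) ^ 2) <
    ∫ r in closedBall (0 : ℂ) Real.pi, ‖Gh (91 / 80) r‖ ^ 2 * (1 + Real.cos ‖r‖) := by
  have hpi := Real.pi_pos
  have hpi3 := Real.pi_gt_three
  have hcos : ∀ r : ℂ, 0 ≤ 1 + Real.cos ‖r‖ := fun r => by linarith [Real.neg_one_le_cos ‖r‖]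
  have hGc := continuous_Gh (91 / 80)
  have hc1 : Continuous fun r : ℂ => ‖Gh (91 / 80) r‖ ^ 2 * (1 + Real.cos ‖r‖) := by fun_prop
  have hI : ∀ R : ℝ, IntegrableOn (fun r : ℂ => ‖Gh (91 / 80) r‖ ^ 2 * (1 + Real.cos ‖r‖))
      (closedBall (0 : ℂ) R) := fun R =>
    hc1.continuousOn.integrableOn_compact (isCompact_closedBall _ _)
  have h1 : ∫ r in closedBall (0 : ℂ) 3, ‖Gh (91 / 80) r‖ ^ 2 * (1 + Real.cos ‖r‖) ≤
      ∫ r in closedBall (0 : ℂ) Real.pi, ‖Gh (91 / 80) r‖ ^ 2 * (1 + Real.cos ‖r‖) := by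
    refine setIntegral_mono_set (hI _) (Filter.Eventually.of_forall fun r =>
      mul_nonneg (sq_nonneg _) (hcos r)) ?_
    exact (closedBall_subset_closedBall hpi3.le).eventuallyLE
  have h2 : ∫ r in closedBall (0 : ℂ) 3, G3 ‖r‖ ≤
      ∫ r in closedBall (0 : ℂ) 3, ‖Gh (91 / 80) r‖ ^ 2 * (1 + Real.cos ‖r‖) := by
    refine setIntegral_mono_on ?_ (hI 3) measurableSet_closedBall fun r hr => ?_
    · refine Continuous.continuousOn ?_ |>.integrableOn_compact (isCompact_closedBall _ _)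
      unfold G3 PP QQ
      fun_prop
    · have hr3 : ‖r‖ ≤ 3 := by simpa using hr
      have hP := PP_nonneg ‖r‖ (norm_nonneg r) hr3
      have hg := Gh_ge (91 / 80) (by norm_num) r
      have hg' : Real.pi * (91 / 80) ^ 2 * PP ‖r‖ ≤ ‖Gh (91 / 80) r‖ :=
        hg.trans (Complex.re_le_norm _)
      have hsq : (Real.pi * (91 / 80) ^ 2 * PP ‖r‖) ^ 2 ≤ ‖Gh (91 / 80) r‖ ^ 2 :=
        pow_le_pow_left₀ (by positivity) hg' 2
      have hq : QQ ‖r‖ ≤ 1 + Real.cos ‖r‖ := by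
        have := cos_ge_ten ‖r‖
        unfold QQ
        linarith
      change (Real.pi * (91 / 80) ^ 2) ^ 2 * (PP ‖r‖ ^ 2 * QQ ‖r‖) ≤ _
      calc (Real.pi * (91 / 80) ^ 2) ^ 2 * (PP ‖r‖ ^ 2 * QQ ‖r‖)
          = (Real.pi * (91 / 80) ^ 2 * PP ‖r‖) ^ 2 * QQ ‖r‖ := by ring
        _ ≤ (Real.pi * (91 / 80) ^ 2 * PP ‖r‖) ^ 2 * (1 + Real.cos ‖r‖) :=
            mul_le_mul_of_nonneg_left hq (sq_nonneg _)
        _ ≤ _ := mul_le_mul_of_nonneg_right hsq (hcos r)
  rw [radial G3 3 (by norm_num)] at h2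
  have h3 : ∫ y in (0 : ℝ)..3, y * G3 y =
      (Real.pi * (91 / 80) ^ 2) ^ 2 * ∫ y in (0 : ℝ)..3, y * (PP y ^ 2 * QQ y) := by
    rw [← intervalIntegral.integral_const_mul]
    congr 1
    funext y
    unfold G3
    ring
  rw [h3] at h2
  refine lt_of_lt_of_le ?_ (h2.trans h1)
  have h4 := int_num
  have h5 : 0 < 2 * Real.pi * (Real.pi * (91 / 80 : ℝ) ^ 2) ^ 2 := by positivity
  have h6 := mul_lt_mul_of_pos_left h4 h5
  calc 4 * Real.pi ^ 2 * (Real.pi * (91 / 80 : ℝ) ^ 2)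
      = 2 * Real.pi * (Real.pi * (91 / 80 : ℝ) ^ 2) ^ 2 * (2 / (91 / 80) ^ 2) := by
        field_simp
        ring
    _ < _ := h6
    _ = _ := by ring

end Pool.Agent.H434
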