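import Mathlib
import Pool.Agent.H434.Core
import Pool.Agent.H434.Disc
import Pool.Agent.H434.Angle

set_option autoImplicit false

open MeasureTheory Metric
open scoped InnerProductSpace ComplexConjugate

namespace Pool.Agent.H434

variable {V ι : Type*} [NormedAddCommGroup V] [InnerProductSpace ℂ V] [Fintype ι]

lemma eig_comb (t α : ℂ) : (1 / 2 : ℂ) * (conj t * α + t * conj α) = ((⟪t, α⟫_ℝ : ℝ) : ℂ) := by
  rw [Complex.inner]
  apply Complex.ext
  · simp
    ring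
  · simp
    ring

lemma env_le (u v : OrthonormalBasis ι ℂ V) (α β : ι → ℂ) (A As B Bs : V →ₗ[ℂ] V)
    (hA : ∀ i, A (u i) = α i • u i) (hAs : ∀ i, As (u i) = conj (α i) • u i)
    (hB : ∀ i, B (v i) = β i • v i) (hBs : ∀ i, Bs (v i) = conj (β i) • v i)
    (L : ℝ) (hL : 0 < L) (h1 : ∀ y, ‖B y - A y‖ ≤ L * ‖y‖) (h2 : ∀ y, ‖Bs y - As y‖ ≤ L * ‖y‖)
    (x : V) (hx : ‖x‖ = 1) (r : ℂ) :
    env r ≤ (∑ k : ι × ι, (conj ⟪u k.1, x⟫_ℂ * ⟪v k.2, x⟫_ℂ * ⟪u k.1, v k.2⟫_ℂ) *
      Complex.exp ((⟪r, ((1 / L : ℝ) : ℂ) * (β k.2 - α k.1)⟫_ℝ : ℝ) * Complex.I)).re := by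
  set t : ℂ := ((1 / L : ℝ) : ℂ) * r with ht
  have htn : ‖t‖ * L = ‖r‖ := by
    rw [ht, norm_mul, Complex.norm_real, Real.norm_of_nonneg (by positivity)]
    field_simp
  have hinner : ∀ z : ℂ, ⟪r, ((1 / L : ℝ) : ℂ) * z⟫_ℝ = ⟪t, z⟫_ℝ := by
    intro z
    rw [ht, Complex.inner, Complex.inner, map_mul, Complex.conj_ofReal]
    congr 1
    ring
  have hsum : (∑ k : ι × ι, (conj ⟪u k.1, x⟫_ℂ * ⟪v k.2, x⟫_ℂ * ⟪u k.1, v k.2⟫_ℂ) *
      Complex.exp ((⟪r, ((1 / L : ℝ) : ℂ) * (β k.2 - α k.1)⟫_ℝ : ℝ) * Complex.I)) =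
      ⟪ph u (fun i => ⟪t, α i⟫_ℝ) x, ph v (fun i => ⟪t, β i⟫_ℝ) x⟫_ℂ := by
    rw [inner_ph_ph, Fintype.sum_prod_type]
    refine Finset.sum_congr rfl fun i _ => Finset.sum_congr rfl fun j _ => ?_
    rw [hinner, inner_sub_right]
  rw [hsum]
  by_cases hr : r ∈ closedBall (0 : ℂ) Real.pi
  · have hr' : ‖r‖ ≤ Real.pi := by simpa using hr
    have he : env r = Real.cos ‖r‖ := by
      unfold env
      rw [Set.indicator_of_mem hr]
      ring
    rw [he]
    refine angle_bound u v _ _ ((1 / 2 : ℂ) • (conj t • A + t • As))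
      ((1 / 2 : ℂ) • (conj t • B + t • Bs)) ?_ ?_ ‖r‖ (norm_nonneg _) hr' ?_ x hx
    · intro i
      rw [LinearMap.smul_apply, LinearMap.add_apply, LinearMap.smul_apply, LinearMap.smul_apply,
        hA, hAs, smul_smul, smul_smul, ← add_smul, smul_smul, eig_comb]
    · intro i
      rw [LinearMap.smul_apply, LinearMap.add_apply, LinearMap.smul_apply, LinearMap.smul_apply,
        hB, hBs, smul_smul, smul_smul, ← add_smul, smul_smul, eig_comb]
    · intro y
      rw [LinearMap.smul_apply, LinearMap.add_apply, LinearMap.smul_apply, LinearMap.smul_apply,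
        LinearMap.smul_apply, LinearMap.add_apply, LinearMap.smul_apply, LinearMap.smul_apply]
      have e : (1 / 2 : ℂ) • (conj t • B y + t • Bs y) - (1 / 2 : ℂ) • (conj t • A y + t • As y) =
          (1 / 2 : ℂ) • (conj t • (B y - A y) + t • (Bs y - As y)) := by
        rw [← smul_sub, smul_sub (conj t), smul_sub t]
        congr 1
        abel
      rw [e, norm_smul]
      have h3 : ‖conj t • (B y - A y) + t • (Bs y - As y)‖ ≤
          ‖t‖ * (L * ‖y‖) + ‖t‖ * (L * ‖y‖) := by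
        refine (norm_add_le _ _).trans (add_le_add ?_ ?_)
        · rw [norm_smul, RCLike.norm_conj]
          exact mul_le_mul_of_nonneg_left (h1 y) (norm_nonneg _)
        · rw [norm_smul]
          exact mul_le_mul_of_nonneg_left (h2 y) (norm_nonneg _)
      have h4 : ‖(1 / 2 : ℂ)‖ = 1 / 2 := by norm_num
      rw [h4, ← htn]
      linarith
  · have he : env r = -1 := by
      unfold env
      rw [Set.indicator_of_notMem hr]
      ring
    rw [he]
    have h3 : |(⟪ph u (fun i => ⟪t, α i⟫_ℝ) x, ph v (fun i => ⟪t, β i⟫_ℝ) x⟫_ℂ).re| ≤ 1 := by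
      refine (Complex.abs_re_le_norm _).trans ((norm_inner_le_norm _ _).trans ?_)
      rw [norm_ph, norm_ph, hx, one_mul]
    exact (abs_le.1 h3).1

theorem no_vector (u v : OrthonormalBasis ι ℂ V) (α β : ι → ℂ) (A As B Bs : V →ₗ[ℂ] V)
    (hA : ∀ i, A (u i) = α i • u i) (hAs : ∀ i, As (u i) = conj (α i) • u i)
    (hB : ∀ i, B (v i) = β i • v i) (hBs : ∀ i, Bs (v i) = conj (β i) • v i)
    (L : ℝ) (hL : 0 < L) (h1 : ∀ y, ‖B y - A y‖ ≤ L * ‖y‖) (h2 : ∀ y, ‖Bs y - As y‖ ≤ L * ‖y‖)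
    (d : ℝ) (hd : 91 / 40 * L < d) (x : V) (hx : ‖x‖ = 1)
    (hsep : ∀ i j, ⟪u i, x⟫_ℂ ≠ 0 → ⟪v j, x⟫_ℂ ≠ 0 → d ≤ ‖α i - β j‖) : False := by
  have h := gauss_main (κ := ι × ι) (91 / 80) (d / L) (by norm_num)
    (by rw [lt_div_iff₀ hL]; linarith)
    (fun k => conj ⟪u k.1, x⟫_ℂ * ⟪v k.2, x⟫_ℂ * ⟪u k.1, v k.2⟫_ℂ)
    (fun k => ((1 / L : ℝ) : ℂ) * (β k.2 - α k.1)) (by
      intro k hk
      have h3 : ⟪u k.1, x⟫_ℂ ≠ 0 := by
        intro h0
        exact hk (by simp only [h0, map_zero, zero_mul])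
      have h4 : ⟪v k.2, x⟫_ℂ ≠ 0 := by
        intro h0
        exact hk (by simp only [h0, mul_zero, zero_mul])
      have h5 := hsep k.1 k.2 h3 h4
      rw [norm_mul, Complex.norm_real, Real.norm_of_nonneg (by positivity), norm_sub_rev,
        one_div, ← div_eq_inv_mul]
      gcongr)
    (fun r => env_le u v α β A As B Bs hA hAs hB hBs L hL h1 h2 x hx r)
  exact absurd h (not_le.2 J_gt)

theorem matching_normal {n : ℕ} (u v : OrthonormalBasis (Fin n) ℂ V) (α β : Fin n → ℂ)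
    (A As B Bs : V →ₗ[ℂ] V)
    (hA : ∀ i, A (u i) = α i • u i) (hAs : ∀ i, As (u i) = conj (α i) • u i)
    (hB : ∀ i, B (v i) = β i • v i) (hBs : ∀ i, Bs (v i) = conj (β i) • v i)
    (L : ℝ) (hL : 0 ≤ L) (h1 : ∀ y, ‖B y - A y‖ ≤ L * ‖y‖) (h2 : ∀ y, ‖Bs y - As y‖ ≤ L * ‖y‖)
    (d : ℝ) (hd : 91 / 40 * L < d) :
    ∃ σ : Equiv.Perm (Fin n), ∀ i, ‖α i - β (σ i)‖ < d := by
  classical
  set t : Fin n → Finset (Fin n) := fun i => Finset.univ.filter fun j => ‖α i - β j‖ < d with ht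
  by_cases hHall : ∀ s : Finset (Fin n), s.card ≤ (s.biUnion t).card
  · obtain ⟨f, hf, hft⟩ := (Finset.all_card_le_biUnion_card_iff_exists_injective t).1 hHall
    refine ⟨Equiv.ofBijective f (Finite.injective_iff_bijective.1 hf), fun i => ?_⟩
    have := hft i
    simp only [ht, Finset.mem_filter, Finset.mem_univ, true_and] at this
    exact this
  · exfalso
    push Not at hHall
    obtain ⟨S, hS⟩ := hHall
    set T : Finset (Fin n) := (S.biUnion t)ᶜ with hT
    have hcard : n < S.card + T.card := by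
      rw [hT, Finset.card_compl, Fintype.card_fin]
      have h1 : (S.biUnion t).card ≤ n := by simpa using Finset.card_le_univ (S.biUnion t)
      omega
    obtain ⟨x, hx, hxS, hxT⟩ := exists_vec u v S T hcard
    -- a slightly larger positive bound
    set M : ℝ := (L + d * 40 / 91) / 2 with hM
    have hM0 : 0 < M := by
      have : 0 < d := lt_of_le_of_lt (by positivity) hd
      positivity
    have hLM : L ≤ M := by rw [hM]; linarith
    refine no_vector u v α β A As B Bs hA hAs hB hBs M hM0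
      (fun y => (h1 y).trans (mul_le_mul_of_nonneg_right hLM (norm_nonneg _)))
      (fun y => (h2 y).trans (mul_le_mul_of_nonneg_right hLM (norm_nonneg _))) d
      (by rw [hM]; linarith) x hx ?_
    intro i j hi hj
    have hiS : i ∈ S := by
      by_contra h
      exact hi (hxS i h)
    have hjT : j ∈ T := by
      by_contra h
      exact hj (hxT j h)
    by_contra h
    push Not at h
    rw [hT, Finset.mem_compl] at hjT
    exact hjT (Finset.mem_biUnion.2 ⟨i, hiS, by simp [ht, h]⟩)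

end Pool.Agent.H434
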